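import Pool.Agent.TH376.GE.Defs

/-!
# Good endomorphisms of free algebras: formal properties of the derivative (DETA)
-/

set_option autoImplicit false

open FreeAlgebra Matrix MulOpposite

namespace Pool.Agent.TH376.GE

variable {K : Type} [Field K] {n : ℕ}

namespace DETA

/-- value at the block matrices `[[X, E], [0, X]]` -/
def L {S : Type} [CommRing S] [Algebra K S] {N : ℕ} (X E : Fin n → Matrix (Fin N) (Fin N) S)
    (a : FreeAlgebra K (Fin n)) : Matrix (Fin N ⊕ Fin N) (Fin N ⊕ Fin N) S :=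
  FreeAlgebra.lift K (fun j => fromBlocks (X j) (E j) 0 (X j)) a

variable {S : Type} [CommRing S] [Algebra K S] {N : ℕ} (X E : Fin n → Matrix (Fin N) (Fin N) S)

theorem L_mul (a b : FreeAlgebra K (Fin n)) : L X E (a * b) = L X E a * L X E b :=
  map_mul _ _ _

theorem L_add (a b : FreeAlgebra K (Fin n)) : L X E (a + b) = L X E a + L X E b :=
  map_add _ _ _

theorem L_ι (i : Fin n) : L (K := K) X E (ι K i) = fromBlocks (X i) (E i) 0 (X i) := by
  unfold L
  rw [FreeAlgebra.lift_ι_apply]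

theorem L_alg (r : K) : L X E (algebraMap K (FreeAlgebra K (Fin n)) r) =
    fromBlocks (algebraMap K (Matrix (Fin N) (Fin N) S) r) 0 0
      (algebraMap K (Matrix (Fin N) (Fin N) S) r) := by
  unfold L
  rw [AlgHom.commutes, Algebra.algebraMap_eq_smul_one, Algebra.algebraMap_eq_smul_one,
    ← fromBlocks_one, fromBlocks_smul, smul_zero]

theorem blk (a : FreeAlgebra K (Fin n)) :
    L X E a = fromBlocks (FreeAlgebra.lift K X a) (L X E a).toBlocks₁₂ 0
      (FreeAlgebra.lift K X a) := by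
  induction a using FreeAlgebra.induction with
  | grade0 r => rw [L_alg, AlgHom.commutes, toBlocks_fromBlocks₁₂]
  | grade1 i => rw [L_ι, FreeAlgebra.lift_ι_apply, toBlocks_fromBlocks₁₂]
  | mul a b ha hb =>
    rw [L_mul, map_mul]
    rw [ha, hb, fromBlocks_multiply]
    simp
  | add a b ha hb =>
    rw [L_add, map_add]
    rw [ha, hb, fromBlocks_add]
    simp

theorem D_mul (a b : FreeAlgebra K (Fin n)) : (L X E (a * b)).toBlocks₁₂ =
    FreeAlgebra.lift K X a * (L X E b).toBlocks₁₂ +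
      (L X E a).toBlocks₁₂ * FreeAlgebra.lift K X b := by
  rw [L_mul, blk X E a, blk X E b, fromBlocks_multiply]
  simp

theorem D_add (a b : FreeAlgebra K (Fin n)) : (L X E (a + b)).toBlocks₁₂ =
    (L X E a).toBlocks₁₂ + (L X E b).toBlocks₁₂ := by
  rw [L_add, blk X E a, blk X E b, fromBlocks_add]
  simp

theorem D_alg (r : K) : (L X E (algebraMap K (FreeAlgebra K (Fin n)) r)).toBlocks₁₂ = 0 := by
  rw [L_alg, toBlocks_fromBlocks₁₂]

theorem D_ι (i : Fin n) : (L (K := K) X E (ι K i)).toBlocks₁₂ = E i := by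
  rw [L_ι, toBlocks_fromBlocks₁₂]

theorem D_dir_add (E' : Fin n → Matrix (Fin N) (Fin N) S) (a : FreeAlgebra K (Fin n)) :
    (L X (E + E') a).toBlocks₁₂ = (L X E a).toBlocks₁₂ + (L X E' a).toBlocks₁₂ := by
  induction a using FreeAlgebra.induction with
  | grade0 r => rw [D_alg, D_alg, D_alg, add_zero]
  | grade1 i => rw [D_ι, D_ι, D_ι, Pi.add_apply]
  | mul a b ha hb =>
    rw [D_mul, D_mul, D_mul, ha, hb, mul_add, add_mul]
    abel
  | add a b ha hb =>
    rw [D_add, D_add, D_add, ha, hb]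
    abel

theorem D_dir_smul (s : S) (a : FreeAlgebra K (Fin n)) :
    (L X (s • E) a).toBlocks₁₂ = s • (L X E a).toBlocks₁₂ := by
  induction a using FreeAlgebra.induction with
  | grade0 r => rw [D_alg, D_alg, smul_zero]
  | grade1 i => rw [D_ι, D_ι, Pi.smul_apply]
  | mul a b ha hb =>
    rw [D_mul, D_mul, ha, hb, smul_add, Matrix.mul_smul, Matrix.smul_mul]
  | add a b ha hb =>
    rw [D_add, D_add, ha, hb, smul_add]

theorem lift_map {S' : Type} [CommRing S'] [Algebra K S'] (g : S →ₐ[K] S')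
    (a : FreeAlgebra K (Fin n)) :
    FreeAlgebra.lift K (fun i => (X i).map g) a = (FreeAlgebra.lift K X a).map g := by
  have h : FreeAlgebra.lift K (fun i => (X i).map g) =
      (g.mapMatrix).comp (FreeAlgebra.lift K X) := by
    apply FreeAlgebra.hom_ext
    funext i
    simp
  rw [h]
  rfl

theorem D_map {S' : Type} [CommRing S'] [Algebra K S'] (g : S →ₐ[K] S')
    (a : FreeAlgebra K (Fin n)) :
    (L (fun i => (X i).map g) (fun i => (E i).map g) a).toBlocks₁₂ =
      ((L X E a).toBlocks₁₂).map g := by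
  have hmul : ∀ A B : Matrix (Fin N) (Fin N) S, (A * B).map g = A.map g * B.map g :=
    fun A B => Matrix.map_mul
  have hadd : ∀ A B : Matrix (Fin N) (Fin N) S, (A + B).map g = A.map g + B.map g :=
    fun A B => Matrix.map_add g (map_add g) A B
  induction a using FreeAlgebra.induction with
  | grade0 r =>
    rw [D_alg, D_alg, Matrix.map_zero _ (map_zero g)]
  | grade1 i => rw [D_ι, D_ι]
  | mul a b ha hb =>
    rw [D_mul, D_mul, ha, hb, hadd, hmul, hmul, lift_map, lift_map]
  | add a b ha hb =>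
    rw [D_add, D_add, ha, hb, hadd]

end DETA

open DETA

theorem jac_add {S : Type} [CommRing S] [Algebra K S] {N : ℕ}
    (φ : FreeAlgebra K (Fin n) →ₐ[K] FreeAlgebra K (Fin n))
    (X E E' : Fin n → Matrix (Fin N) (Fin N) S) : jac φ X (E + E') = jac φ X E + jac φ X E' := by
  funext i
  exact D_dir_add X E E' _

theorem jac_smul {S : Type} [CommRing S] [Algebra K S] {N : ℕ}
    (φ : FreeAlgebra K (Fin n) →ₐ[K] FreeAlgebra K (Fin n)) (s : S)
    (X E : Fin n → Matrix (Fin N) (Fin N) S) : jac φ X (s • E) = s • jac φ X E := by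
  funext i
  exact D_dir_smul X E s _

theorem jac_comp {S : Type} [CommRing S] [Algebra K S] {N : ℕ}
    (φ ψ α : FreeAlgebra K (Fin n) →ₐ[K] FreeAlgebra K (Fin n)) (h : ∀ a, φ a = ψ (α a))
    (X E : Fin n → Matrix (Fin N) (Fin N) S) : jac φ X E = jac α (val ψ X) (jac ψ X E) := by
  have h1 : (FreeAlgebra.lift K (fun j => fromBlocks (X j) (E j) 0 (X j))).comp ψ =
      FreeAlgebra.lift K (fun j => fromBlocks (val ψ X j) (jac ψ X E j) 0 (val ψ X j)) := by
    apply FreeAlgebra.hom_ext
    funext i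
    simp only [Function.comp_apply, AlgHom.comp_apply, FreeAlgebra.lift_ι_apply]
    exact blk X E (ψ (ι K i))
  funext i
  unfold jac
  rw [h]
  have h2 := congrArg (fun f : FreeAlgebra K (Fin n) →ₐ[K] _ => f (α (ι K i))) h1
  simp only [AlgHom.comp_apply] at h2
  rw [h2]
  rfl

theorem val_comp {S : Type} [CommRing S] [Algebra K S] {N : ℕ}
    (φ ψ α : FreeAlgebra K (Fin n) →ₐ[K] FreeAlgebra K (Fin n)) (h : ∀ a, φ a = ψ (α a))
    (X : Fin n → Matrix (Fin N) (Fin N) S) : val φ X = val α (val ψ X) := by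
  have h1 : (FreeAlgebra.lift K X).comp ψ = FreeAlgebra.lift K (val ψ X) := by
    apply FreeAlgebra.hom_ext
    funext i
    simp only [Function.comp_apply, AlgHom.comp_apply, FreeAlgebra.lift_ι_apply]
    rfl
  funext i
  unfold val
  rw [h]
  have h2 := congrArg (fun f : FreeAlgebra K (Fin n) →ₐ[K] _ => f (α (ι K i))) h1
  simp only [AlgHom.comp_apply] at h2
  rw [h2]
  rfl

theorem jac_id {S : Type} [CommRing S] [Algebra K S] {N : ℕ}
    (X E : Fin n → Matrix (Fin N) (Fin N) S) : jac (AlgHom.id K _) X E = E := by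
  funext i
  unfold jac
  rw [AlgHom.id_apply]
  exact D_ι X E i

theorem jac_map {S S' : Type} [CommRing S] [Algebra K S] [CommRing S'] [Algebra K S'] {N : ℕ}
    (φ : FreeAlgebra K (Fin n) →ₐ[K] FreeAlgebra K (Fin n)) (g : S →ₐ[K] S')
    (X E : Fin n → Matrix (Fin N) (Fin N) S) :
    jac φ (fun i => (X i).map g) (fun i => (E i).map g) = fun i => (jac φ X E i).map g := by
  funext i
  exact D_map X E g _

end Pool.Agent.TH376.GE

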