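import Pool.Agent.TH376.GE.Defs

/-!
The derivative of an endomorphism which is the identity modulo a power of the augmentation ideal
(part DETB).
-/

set_option autoImplicit false

open FreeAlgebra Matrix

namespace Pool.Agent.TH376.GE

namespace DETB

variable {K : Type} [Field K] {n : ℕ} {S : Type} [CommRing S] [Algebra K S] {N : ℕ}

/-- the evaluation at the block matrices `[[X, E], [0, X]]` -/
noncomputable def L (K : Type) [Field K] {S : Type} [CommRing S] [Algebra K S] {n N : ℕ}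
    (X E : Fin n → Matrix (Fin N) (Fin N) S) :
    FreeAlgebra K (Fin n) →ₐ[K] Matrix (Fin N ⊕ Fin N) (Fin N ⊕ Fin N) S :=
  FreeAlgebra.lift K (fun j => fromBlocks (X j) (E j) 0 (X j))

theorem L_ι (X E : Fin n → Matrix (Fin N) (Fin N) S) (i : Fin n) :
    L K X E (ι K i) = fromBlocks (X i) (E i) 0 (X i) := by
  unfold L
  rw [FreeAlgebra.lift_ι_apply]

theorem algMap_blocks (r : K) :
    (algebraMap K (Matrix (Fin N ⊕ Fin N) (Fin N ⊕ Fin N) S) r) =
      fromBlocks (algebraMap K _ r) 0 0 (algebraMap K _ r) := by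
  rw [Algebra.algebraMap_eq_smul_one, Algebra.algebraMap_eq_smul_one, ← fromBlocks_one,
    fromBlocks_smul, smul_zero]

theorem L_blocks (X E : Fin n → Matrix (Fin N) (Fin N) S) (a : FreeAlgebra K (Fin n)) :
    L K X E a = fromBlocks (FreeAlgebra.lift K X a) (L K X E a).toBlocks₁₂ 0
      (FreeAlgebra.lift K X a) := by
  induction a using FreeAlgebra.induction with
  | grade0 r =>
    rw [AlgHom.commutes, AlgHom.commutes, algMap_blocks, toBlocks_fromBlocks₁₂]
  | grade1 i =>
    rw [L_ι, FreeAlgebra.lift_ι_apply, toBlocks_fromBlocks₁₂]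
  | mul a b ha hb =>
    rw [map_mul, map_mul, ha, hb, fromBlocks_multiply, toBlocks_fromBlocks₁₂]
    simp
  | add a b ha hb =>
    rw [map_add, map_add, ha, hb, fromBlocks_add, toBlocks_fromBlocks₁₂]
    simp

theorem D_mul (X E : Fin n → Matrix (Fin N) (Fin N) S) (a b : FreeAlgebra K (Fin n)) :
    (L K X E (a * b)).toBlocks₁₂ = FreeAlgebra.lift K X a * (L K X E b).toBlocks₁₂ +
      (L K X E a).toBlocks₁₂ * FreeAlgebra.lift K X b := by
  rw [map_mul, L_blocks X E a, L_blocks X E b, fromBlocks_multiply, toBlocks_fromBlocks₁₂,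
    toBlocks_fromBlocks₁₂, toBlocks_fromBlocks₁₂]

theorem mul_ent {I J : Ideal S} {M M' : Matrix (Fin N) (Fin N) S} (h : ∀ i j, M i j ∈ I)
    (h' : ∀ i j, M' i j ∈ J) (i j : Fin N) : (M * M') i j ∈ I * J := by
  rw [Matrix.mul_apply]
  exact Ideal.sum_mem _ fun k _ => Ideal.mul_mem_mul (h i k) (h' k j)

theorem mul_ent_left {I : Ideal S} {M M' : Matrix (Fin N) (Fin N) S} (h : ∀ i j, M i j ∈ I)
    (i j : Fin N) : (M * M') i j ∈ I := by
  rw [Matrix.mul_apply]
  exact Ideal.sum_mem _ fun k _ => Ideal.mul_mem_right _ _ (h i k)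

theorem mul_ent_right {I : Ideal S} {M M' : Matrix (Fin N) (Fin N) S} (h : ∀ i j, M' i j ∈ I)
    (i j : Fin N) : (M * M') i j ∈ I := by
  rw [Matrix.mul_apply]
  exact Ideal.sum_mem _ fun k _ => Ideal.mul_mem_left _ _ (h k j)

theorem lift_sub_mem (𝔪 : Ideal S) (X : Fin n → Matrix (Fin N) (Fin N) S)
    (hX : ∀ i a b, X i a b ∈ 𝔪) (a : FreeAlgebra K (Fin n)) :
    ∀ i j, (FreeAlgebra.lift K X a -
      algebraMap K _ (FreeAlgebra.lift K (fun _ : Fin n => (0 : K)) a)) i j ∈ 𝔪 := by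
  induction a using FreeAlgebra.induction with
  | grade0 r =>
    intro i j
    rw [AlgHom.commutes, AlgHom.commutes, Algebra.algebraMap_self_apply, sub_self]
    exact 𝔪.zero_mem
  | grade1 k =>
    intro i j
    rw [FreeAlgebra.lift_ι_apply, FreeAlgebra.lift_ι_apply, map_zero, sub_zero]
    exact hX k i j
  | mul a b ha hb =>
    intro i j
    have h : FreeAlgebra.lift K X (a * b) -
        algebraMap K _ (FreeAlgebra.lift K (fun _ : Fin n => (0 : K)) (a * b)) =
        (FreeAlgebra.lift K X a -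
          algebraMap K _ (FreeAlgebra.lift K (fun _ : Fin n => (0 : K)) a)) *
            FreeAlgebra.lift K X b +
        algebraMap K _ (FreeAlgebra.lift K (fun _ : Fin n => (0 : K)) a) *
          (FreeAlgebra.lift K X b -
            algebraMap K _ (FreeAlgebra.lift K (fun _ : Fin n => (0 : K)) b)) := by
      rw [map_mul, map_mul, map_mul]
      noncomm_ring
    rw [h, Matrix.add_apply]
    exact 𝔪.add_mem (mul_ent_left ha i j) (mul_ent_right hb i j)
  | add a b ha hb =>
    intro i j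
    have h : FreeAlgebra.lift K X (a + b) -
        algebraMap K _ (FreeAlgebra.lift K (fun _ : Fin n => (0 : K)) (a + b)) =
        (FreeAlgebra.lift K X a -
          algebraMap K _ (FreeAlgebra.lift K (fun _ : Fin n => (0 : K)) a)) +
        (FreeAlgebra.lift K X b -
            algebraMap K _ (FreeAlgebra.lift K (fun _ : Fin n => (0 : K)) b)) := by
      rw [map_add, map_add, map_add]
      abel
    rw [h, Matrix.add_apply]
    exact 𝔪.add_mem (ha i j) (hb i j)

theorem lift_mem (𝔪 : Ideal S) (X : Fin n → Matrix (Fin N) (Fin N) S)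
    (hX : ∀ i a b, X i a b ∈ 𝔪) {a : FreeAlgebra K (Fin n)} (ha : a ∈ aug K n) (i j : Fin N) :
    (FreeAlgebra.lift K X a) i j ∈ 𝔪 := by
  have h := lift_sub_mem (K := K) 𝔪 X hX a i j
  have h0 : FreeAlgebra.lift K (fun _ : Fin n => (0 : K)) a = 0 := ha
  rw [h0, map_zero, sub_zero] at h
  exact h

theorem lift_pow_mem (𝔪 : Ideal S) (X : Fin n → Matrix (Fin N) (Fin N) S)
    (hX : ∀ i a b, X i a b ∈ 𝔪) (m : ℕ) :
    ∀ a ∈ (aug K n) ^ m, ∀ i j, (FreeAlgebra.lift K X a) i j ∈ 𝔪 ^ m := by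
  induction m with
  | zero =>
    intro a _ i j
    rw [pow_zero, Ideal.one_eq_top]
    exact Submodule.mem_top
  | succ m ih =>
    intro a ha
    rw [pow_succ] at ha
    refine Submodule.mul_induction_on ha (fun b hb c hc i j => ?_) (fun b c hb hc i j => ?_)
    · rw [map_mul, pow_succ]
      exact mul_ent (ih b hb) (lift_mem 𝔪 X hX hc) i j
    · rw [map_add, Matrix.add_apply]
      exact Ideal.add_mem _ (hb i j) (hc i j)

theorem D_pow_mem (𝔪 : Ideal S) (X E : Fin n → Matrix (Fin N) (Fin N) S)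
    (hX : ∀ i a b, X i a b ∈ 𝔪) (m : ℕ) :
    ∀ a ∈ (aug K n) ^ m, ∀ i j, (L K X E a).toBlocks₁₂ i j ∈ 𝔪 ^ (m - 1) := by
  induction m with
  | zero =>
    intro a _ i j
    rw [Nat.zero_sub, pow_zero, Ideal.one_eq_top]
    exact Submodule.mem_top
  | succ m ih =>
    intro a ha
    rw [pow_succ] at ha
    rw [Nat.add_sub_cancel]
    refine Submodule.mul_induction_on ha (fun b hb c hc i j => ?_) (fun b c hb hc i j => ?_)
    · rw [D_mul, Matrix.add_apply]
      refine Ideal.add_mem _ (mul_ent_left (lift_pow_mem 𝔪 X hX m b hb) i j) ?_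
      have h := mul_ent (ih b hb) (lift_mem (K := K) 𝔪 X hX hc) i j
      rw [← pow_succ] at h
      exact Ideal.pow_le_pow_right (by omega) h
    · have h : (L K X E (b + c)).toBlocks₁₂ i j =
          (L K X E b).toBlocks₁₂ i j + (L K X E c).toBlocks₁₂ i j := by
        rw [map_add]
        rfl
      rw [h]
      exact Ideal.add_mem _ (hb i j) (hc i j)

end DETB

variable {K : Type} [Field K] {n : ℕ}

-- DETB
theorem jac_congr {S : Type} [CommRing S] [Algebra K S] {N : ℕ} (𝔪 : Ideal S)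
    (X : Fin n → Matrix (Fin N) (Fin N) S) (hX : ∀ i a b, X i a b ∈ 𝔪) (m : ℕ) (hm : 1 ≤ m)
    (ψ : FreeAlgebra K (Fin n) →ₐ[K] FreeAlgebra K (Fin n))
    (hψ : ∀ i, ψ (ι K i) - ι K i ∈ (aug K n) ^ m) (E : Fin n → Matrix (Fin N) (Fin N) S)
    (i : Fin n) (a b : Fin N) : (jac ψ X E i - E i) a b ∈ 𝔪 ^ (m - 1) := by
  have h := DETB.D_pow_mem (K := K) 𝔪 X E hX m _ (hψ i) a b
  have h2 : (jac ψ X E i - E i) a b = (DETB.L K X E (ψ (ι K i) - ι K i)).toBlocks₁₂ a b := by
    rw [map_sub, DETB.L_ι]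
    rfl
  rw [h2]
  exact h

end Pool.Agent.TH376.GE
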