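import Pool.Agent.TH376.GE.Defs

set_option autoImplicit false

open Matrix

namespace Pool.Agent.TH376.GE

section
variable {E : Type} [Field E] (v : AddValuation E (WithTop ℤ)) {n : ℕ} (s : E →+* E) (t : E)

/-- the scalar in row `i` of the companion matrix -/
def divaC (i : Fin (n + 1)) : E := if i = 0 then t else 1

/-- the companion matrix -/
def divaP : Matrix (Fin (n + 1)) (Fin (n + 1)) E := fun i k => if k = i - 1 then divaC t i else 0

lemma divaP_mul (m : Matrix (Fin (n + 1)) (Fin (n + 1)) E) (i j : Fin (n + 1)) :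
    (divaP t * m : Matrix (Fin (n + 1)) (Fin (n + 1)) E) i j = divaC t i * m (i - 1) j := by
  rw [Matrix.mul_apply]
  simp [divaP]

lemma divaP_mul' (m : Matrix (Fin (n + 1)) (Fin (n + 1)) E) (i j : Fin (n + 1)) :
    (m * divaP t : Matrix (Fin (n + 1)) (Fin (n + 1)) E) i j = m i (j + 1) * divaC t (j + 1) := by
  rw [Matrix.mul_apply]
  have h : ∀ k : Fin (n + 1), m i k * divaP t k j =
      if k = j + 1 then m i (j + 1) * divaC t (j + 1) else 0 := by
    intro k
    unfold divaP
    by_cases hk : k = j + 1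
    · rw [if_pos hk, if_pos (by rw [hk]; simp), hk]
    · rw [if_neg hk, if_neg (fun h => hk (by rw [h]; simp)), mul_zero]
  simp [h]

/-- the semilinear operator -/
def divaF (x : Fin (n + 1) → E) : Fin (n + 1) → E := fun i => divaC t i * s (x (i - 1))

lemma divaF_eq (x : Fin (n + 1) → E) : divaF s t x = divaP t *ᵥ (fun i => s (x i)) := by
  ext i
  rw [Matrix.mulVec, dotProduct]
  simp [divaP, divaF]

/-- the weight -/
def divaW (j : Fin (n + 1)) (a : E) : WithTop ℤ := (n + 1) • v a + ((j : ℕ) : ℤ)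

variable {v s t}

lemma diva_top (n : ℕ) : (n + 1) • (⊤ : WithTop ℤ) = ⊤ := by
  rw [succ_nsmul, WithTop.add_top]

lemma diva_ofNat (n k : ℕ) : Fin.ofNat (n + 1) (k + 1) = Fin.ofNat (n + 1) k + 1 := by
  apply Fin.ext
  simp [Fin.val_add]

lemma divaW_step (hs : ∀ x, v (s x) = v x) (ht : v t = 1) (x : Fin (n + 1) → E)
    (j : Fin (n + 1)) : divaW v j (divaF s t x j) = divaW v (j - 1) (x (j - 1)) + 1 := by
  unfold divaW divaF divaC
  rw [v.map_mul, hs]
  by_cases hj : j = 0
  · subst hj
    rw [if_pos rfl, ht, Fin.coe_sub_one, if_pos rfl]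
    cases v (x (0 - 1)) with
    | top => simp [diva_top]
    | coe a =>
      norm_cast
      simp only [nsmul_eq_mul]
      push_cast
      simp
      ring
  · rw [if_neg hj, v.map_one, Fin.coe_sub_one, if_neg hj]
    have h1 : 1 ≤ (j : ℕ) := Nat.one_le_iff_ne_zero.2 (fun h => hj (Fin.ext h))
    cases v (x (j - 1)) with
    | top => simp [diva_top]
    | coe a =>
      norm_cast
      simp only [nsmul_eq_mul]
      push_cast [Nat.cast_sub h1]
      ring

lemma divaW_iter (hs : ∀ x, v (s x) = v x) (ht : v t = 1) (x : Fin (n + 1) → E) (k : ℕ)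
    (j : Fin (n + 1)) : divaW v j ((divaF s t)^[k] x j) =
      divaW v (j - Fin.ofNat (n + 1) k) (x (j - Fin.ofNat (n + 1) k)) + ((k : ℤ) : WithTop ℤ) := by
  induction k generalizing j with
  | zero => simp
  | succ k ih =>
    rw [Function.iterate_succ_apply', divaW_step hs ht, ih]
    have e1 : j - 1 - Fin.ofNat (n + 1) k = j - Fin.ofNat (n + 1) (k + 1) := by
      rw [diva_ofNat, sub_sub, add_comm 1]
    rw [e1, add_assoc]
    norm_cast

lemma divaW_ne_top {j : Fin (n + 1)} {a : E} (ha : a ≠ 0) : divaW v j a ≠ ⊤ := by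
  unfold divaW
  have h : v a ≠ ⊤ := by rwa [v.ne_top_iff]
  obtain ⟨z, hz⟩ := WithTop.ne_top_iff_exists.1 h
  rw [← hz]
  norm_cast
  exact WithTop.coe_ne_top

/-- weights of different indices differ -/
lemma divaW_inj {i j : Fin (n + 1)} {a b : E} (ha : a ≠ 0) (h : divaW v i a = divaW v j b) :
    i = j := by
  have h1 := divaW_ne_top (v := v) (j := i) ha
  unfold divaW at h h1
  have h2 : v a ≠ ⊤ := by rwa [v.ne_top_iff]
  obtain ⟨z, hz⟩ := WithTop.ne_top_iff_exists.1 h2
  have h3 : v b ≠ ⊤ := by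
    intro h3
    rw [h3] at h
    rw [h] at h1
    apply h1
    simp [diva_top]
  obtain ⟨z', hz'⟩ := WithTop.ne_top_iff_exists.1 h3
  rw [← hz, ← hz'] at h
  norm_cast at h
  simp only [nsmul_eq_mul] at h
  push_cast at h
  have h4 : ((i : ℕ) : ℤ) < n + 1 := by exact_mod_cast i.2
  have h5 : ((j : ℕ) : ℤ) < n + 1 := by exact_mod_cast j.2
  have h6 : ((n : ℤ) + 1) * (z - z') = (j : ℕ) - (i : ℕ) := by linarith
  have h7 : z - z' = 0 := by
    by_contra h7
    rcases lt_or_gt_of_ne h7 with h8 | h8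
    · nlinarith [Int.natCast_nonneg (i : ℕ), Int.natCast_nonneg (j : ℕ)]
    · nlinarith [Int.natCast_nonneg (i : ℕ), Int.natCast_nonneg (j : ℕ)]
  rw [h7, mul_zero] at h6
  apply Fin.ext
  omega

lemma diva_exists_min {x : Fin (n + 1) → E} (hx : x ≠ 0) :
    ∃ j, x j ≠ 0 ∧ ∀ i, i ≠ j → divaW v j (x j) < divaW v i (x i) := by
  obtain ⟨j, _, hj⟩ := Finset.exists_min_image Finset.univ (fun j => divaW v j (x j))
    ⟨0, Finset.mem_univ _⟩
  have hj0 : x j ≠ 0 := by
    intro h0
    apply hx
    ext i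
    by_contra hi
    have h1 := hj i (Finset.mem_univ _)
    have h2 : divaW v j (x j) = ⊤ := by
      unfold divaW; rw [h0, v.map_zero]; simp [diva_top]
    simp only [h2, top_le_iff] at h1
    exact divaW_ne_top (by simpa using hi) h1
  refine ⟨j, hj0, fun i hi => lt_of_le_of_ne (hj i (Finset.mem_univ _)) fun h => ?_⟩
  exact hi (divaW_inj hj0 h).symm

/-- linear independence of the orbit -/
lemma divaF_indep (hs : ∀ x, v (s x) = v x) (ht : v t = 1) {x : Fin (n + 1) → E} (hx : x ≠ 0)
    {c : Fin (n + 1) → E} (hc : ∀ j, ∑ k : Fin (n + 1), (divaF s t)^[k] x j * c k = 0) :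
    c = 0 := by
  by_contra hc0
  obtain ⟨j₀, hj₀, hj⟩ := diva_exists_min (v := v) hx
  obtain ⟨k₀, hk₀, hk⟩ := diva_exists_min (v := v) hc0
  set J : Fin (n + 1) := j₀ + k₀ with hJ
  have key : ∀ k : Fin (n + 1), divaW v J ((divaF s t)^[k] x J * c k) =
      divaW v (J - k) (x (J - k)) + divaW v k (c k) := by
    intro k
    have h1 := divaW_iter hs ht x k J
    have h0 : Fin.ofNat (n + 1) (k : ℕ) = k := by
      apply Fin.ext
      simp
    rw [h0] at h1
    have h2 : divaW v J ((divaF s t)^[k] x J * c k) =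
        divaW v J ((divaF s t)^[k] x J) + (n + 1) • v (c k) := by
      unfold divaW
      rw [v.map_mul, smul_add]
      abel
    rw [h2, h1]
    unfold divaW
    abel
  have e0 : J - k₀ = j₀ := by rw [hJ, add_sub_cancel_right]
  have key0 := key k₀
  rw [e0] at key0
  have hA : divaW v k₀ (c k₀) ≠ ⊤ := divaW_ne_top hk₀
  have hC : divaW v j₀ (x j₀) ≠ ⊤ := divaW_ne_top hj₀
  have hlt : ∀ k, k ≠ k₀ → v ((divaF s t)^[k₀] x J * c k₀) < v ((divaF s t)^[k] x J * c k) := by
    intro k hkk
    have h1 : divaW v J ((divaF s t)^[k₀] x J * c k₀) < divaW v J ((divaF s t)^[k] x J * c k) := by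
      rw [key0, key]
      have h2 : divaW v j₀ (x j₀) ≤ divaW v (J - k) (x (J - k)) := by
        by_cases hh : J - k = j₀
        · rw [hh]
        · exact (hj _ hh).le
      calc divaW v j₀ (x j₀) + divaW v k₀ (c k₀) < divaW v j₀ (x j₀) + divaW v k (c k) :=
            WithTop.add_lt_add_left hC (hk k hkk)
        _ ≤ _ := by gcongr
    by_contra hcon
    push Not at hcon
    apply absurd h1
    push Not
    unfold divaW
    gcongr
  have hne : v ((divaF s t)^[k₀] x J * c k₀) ≠ ⊤ := by
    intro h0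
    have : divaW v J ((divaF s t)^[k₀] x J * c k₀) = ⊤ := by
      unfold divaW; rw [h0]; simp [diva_top]
    rw [key0] at this
    rcases WithTop.add_eq_top.1 this with h1 | h1
    · exact hC h1
    · exact hA h1
  have hsum := hc J
  rw [← Finset.add_sum_erase _ _ (Finset.mem_univ k₀)] at hsum
  have h3 := v.map_lt_sum (s := Finset.univ.erase k₀)
    (f := fun k : Fin (n + 1) => (divaF s t)^[k] x J * c k) hne
    (fun k hk => hlt k (Finset.ne_of_mem_erase hk))
  have h4 : ∑ k ∈ Finset.univ.erase k₀, (divaF s t)^[(k : ℕ)] x J * c k =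
      -((divaF s t)^[k₀] x J * c k₀) := by
    linear_combination hsum
  rw [h4, v.map_neg] at h3
  exact lt_irrefl _ h3

lemma divaF_zero : divaF s t (0 : Fin (n + 1) → E) = 0 := by
  ext i
  simp [divaF]

/-- the subring of matrices commuting with the semilinear operator -/
def divaD (n : ℕ) (s : E →+* E) (t : E) : Subring (Matrix (Fin (n + 1)) (Fin (n + 1)) E) where
  carrier := {m | divaP t * m.map s = m * divaP t}
  mul_mem' := by
    intro a b ha hb
    simp only [Set.mem_ofPred_eq] at ha hb ⊢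
    rw [Matrix.map_mul, ← Matrix.mul_assoc, ha, Matrix.mul_assoc, hb, Matrix.mul_assoc]
  one_mem' := by
    simp only [Set.mem_ofPred_eq]
    rw [Matrix.map_one s (map_zero s) (map_one s), Matrix.mul_one, Matrix.one_mul]
  add_mem' := by
    intro a b ha hb
    simp only [Set.mem_ofPred_eq] at ha hb ⊢
    rw [Matrix.map_add s (map_add s), Matrix.mul_add, Matrix.add_mul, ha, hb]
  zero_mem' := by
    simp only [Set.mem_ofPred_eq]
    rw [Matrix.map_zero s (map_zero s), Matrix.mul_zero, Matrix.zero_mul]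
  neg_mem' := by
    intro a ha
    simp only [Set.mem_ofPred_eq] at ha ⊢
    have h : (-a).map s = -(a.map s) := by
      ext i j
      simp
    rw [h, Matrix.mul_neg, Matrix.neg_mul, ha]

lemma divaD_iff (m : Matrix (Fin (n + 1)) (Fin (n + 1)) E) :
    m ∈ divaD n s t ↔ divaP t * m.map s = m * divaP t := Iff.rfl

lemma divaD_iff' (m : Matrix (Fin (n + 1)) (Fin (n + 1)) E) :
    m ∈ divaD n s t ↔ ∀ i j, divaC t i * s (m (i - 1) j) = m i (j + 1) * divaC t (j + 1) := by
  rw [divaD_iff]
  constructor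
  · intro h i j
    have h1 := congrFun (congrFun h i) j
    rw [divaP_mul, divaP_mul'] at h1
    exact h1
  · intro h
    ext i j
    rw [divaP_mul, divaP_mul']
    exact h i j

lemma diva_comm {m : Matrix (Fin (n + 1)) (Fin (n + 1)) E} (hm : m ∈ divaD n s t)
    (x : Fin (n + 1) → E) : m *ᵥ divaF s t x = divaF s t (m *ᵥ x) := by
  rw [divaF_eq, divaF_eq, Matrix.mulVec_mulVec, ← (divaD_iff m).1 hm, ← Matrix.mulVec_mulVec]
  congr 1
  ext i
  simp only [Matrix.mulVec, dotProduct, map_sum, map_mul, Matrix.map_apply]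

lemma diva_unit (hs : ∀ x, v (s x) = v x) (ht : v t = 1)
    {m : Matrix (Fin (n + 1)) (Fin (n + 1)) E} (hm : m ∈ divaD n s t) (hm0 : m ≠ 0) :
    IsUnit m := by
  rw [← Matrix.mulVec_injective_iff_isUnit]
  rw [← Matrix.coe_mulVecLin, ← LinearMap.ker_eq_bot, LinearMap.ker_eq_bot']
  intro x hx
  rw [Matrix.mulVecLin_apply] at hx
  by_contra hx0
  apply hm0
  set Q : Matrix (Fin (n + 1)) (Fin (n + 1)) E := Matrix.of fun j k => (divaF s t)^[(k : ℕ)] x j
    with hQ
  have hQu : IsUnit Q := by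
    rw [← Matrix.mulVec_injective_iff_isUnit, ← Matrix.coe_mulVecLin, ← LinearMap.ker_eq_bot,
      LinearMap.ker_eq_bot']
    intro c hc
    rw [Matrix.mulVecLin_apply] at hc
    exact divaF_indep hs ht hx0 fun j => congrFun hc j
  have hit : ∀ k : ℕ, m *ᵥ ((divaF s t)^[k] x) = 0 := by
    intro k
    induction k with
    | zero => exact hx
    | succ k ih =>
      rw [Function.iterate_succ_apply', diva_comm hm, ih, divaF_zero]
  have hmQ : m * Q = 0 := by
    ext i k
    rw [Matrix.mul_apply]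
    have := congrFun (hit k) i
    exact this
  have h1 : m * Q * Q⁻¹ = 0 := by rw [hmQ, Matrix.zero_mul]
  rwa [Matrix.mul_assoc, Matrix.mul_nonsing_inv _ ((Matrix.isUnit_iff_isUnit_det _).1 hQu),
    Matrix.mul_one] at h1

lemma diva_inv {m m' : Matrix (Fin (n + 1)) (Fin (n + 1)) E} (hm : m ∈ divaD n s t)
    (h1 : m * m' = 1) (h2 : m' * m = 1) : m' ∈ divaD n s t := by
  rw [divaD_iff] at hm ⊢
  have h3 : m.map s * m'.map s = 1 := by
    rw [← Matrix.map_mul, h1, Matrix.map_one s (map_zero s) (map_one s)]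
  calc divaP t * m'.map s = m' * m * (divaP t * m'.map s) := by rw [h2, Matrix.one_mul]
    _ = m' * (m * divaP t) * m'.map s := by simp only [Matrix.mul_assoc]
    _ = m' * (divaP t * m.map s) * m'.map s := by rw [hm]
    _ = m' * divaP t * (m.map s * m'.map s) := by simp only [Matrix.mul_assoc]
    _ = m' * divaP t := by rw [h3, Matrix.mul_one]

end

section
variable {L : Type} [Field L]

/-- a ring homomorphism acting on the coefficients of Laurent series -/
noncomputable def divaS (τ : L →+* L) : HahnSeries ℤ L →+* HahnSeries ℤ L where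
  toFun x := x.map τ
  map_one' := HahnSeries.map_one τ.toMonoidWithZeroHom
  map_mul' x y := HahnSeries.map_mul (τ : L →ₙ+* L)
  map_zero' := by ext; simp
  map_add' x y := by ext; simp

lemma divaS_coeff (τ : L →+* L) (x : HahnSeries ℤ L) (k : ℤ) :
    (divaS τ x).coeff k = τ (x.coeff k) := rfl

lemma divaS_val (τ : L →+* L) (x : HahnSeries ℤ L) :
    HahnSeries.addVal ℤ L (divaS τ x) = HahnSeries.addVal ℤ L x := by
  by_cases hx : x = 0
  · rw [hx, map_zero]
  · have hsx : divaS τ x ≠ 0 := by rwa [Ne, map_eq_zero]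
    apply le_antisymm
    · rw [HahnSeries.addVal_apply_of_ne hx]
      apply HahnSeries.addVal_le_of_coeff_ne_zero
      rw [divaS_coeff]
      have h1 : x.coeff x.order ≠ 0 := HahnSeries.coeff_order_eq_zero.not.2 hx
      rwa [Ne, map_eq_zero]
    · rw [HahnSeries.addVal_apply_of_ne hsx]
      apply HahnSeries.addVal_le_of_coeff_ne_zero
      have h1 : (divaS τ x).coeff (divaS τ x).order ≠ 0 :=
        HahnSeries.coeff_order_eq_zero.not.2 hsx
      rw [divaS_coeff] at h1
      exact fun h2 => h1 (by rw [h2, map_zero])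

lemma divaS_C (τ : L →+* L) (a : L) : divaS τ (HahnSeries.C a) = HahnSeries.C (τ a) :=
  HahnSeries.map_C a τ

/-- the variable -/
noncomputable def divaT : HahnSeries ℤ L := HahnSeries.single (1 : ℤ) (1 : L)

lemma divaS_T (τ : L →+* L) : divaS τ (divaT : HahnSeries ℤ L) = divaT := by
  ext k
  rw [divaS_coeff]
  unfold divaT
  by_cases hk : k = 1
  · rw [hk, HahnSeries.coeff_single_same, map_one]
  · rw [HahnSeries.coeff_single_of_ne hk, map_zero]

lemma diva_val_T : HahnSeries.addVal ℤ L (divaT : HahnSeries ℤ L) = 1 := by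
  rw [HahnSeries.addVal_apply]
  unfold divaT
  rw [HahnSeries.orderTop_single one_ne_zero]
  rfl

end

theorem exists_cyclic {K L : Type} [Field K] [Field L] [Algebra K L] (σ : L ≃ₐ[K] L) (N : ℕ)
    (hN : 0 < N) (hσ : ∀ b, (σ ^ N) b = b) :
    ∃ (E : Type) (_ : Field E) (_ : Algebra K E) (D : Type) (_ : DivisionRing D)
      (i : D →+* Matrix (Fin N) (Fin N) E) (dg : L →+* D) (T : D), Function.Injective i ∧
      (∀ b, T * dg b = dg (σ b) * T) ∧
      (∀ c : K, i (dg (algebraMap K L c)) = algebraMap K (Matrix (Fin N) (Fin N) E) c) ∧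
      ∀ a : Fin N → L, ∑ k, dg (a k) * T ^ (k : ℕ) = 0 → a = 0 := by
  obtain ⟨n, rfl⟩ : ∃ n, N = n + 1 := ⟨N - 1, by omega⟩
  set τ : L ≃ₐ[K] L := σ⁻¹ with hτ
  have hσN : σ ^ (n + 1) = 1 := by
    ext b
    exact hσ b
  have hτN : τ ^ (n + 1) = 1 := by rw [hτ, inv_pow, hσN, inv_one]
  set s : HahnSeries ℤ L →+* HahnSeries ℤ L := divaS (τ : L →+* L) with hs
  set t : HahnSeries ℤ L := divaT with ht
  set D : Subring (Matrix (Fin (n + 1)) (Fin (n + 1)) (HahnSeries ℤ L)) := divaD n s t with hD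
  have hstep : ∀ (j : Fin (n + 1)) (b : L), (τ ^ ((j + 1 : Fin (n + 1)) : ℕ)) b =
      (τ ^ ((j : ℕ) + 1)) b := by
    intro j b
    have h1 : ((j + 1 : Fin (n + 1)) : ℕ) = ((j : ℕ) + 1) % (n + 1) := by
      rw [Fin.val_add]
      simp
    rw [h1, ← pow_eq_pow_mod _ hτN]
  -- diagonal matrices
  set f : L →+* Matrix (Fin (n + 1)) (Fin (n + 1)) (HahnSeries ℤ L) :=
    (Matrix.diagonalRingHom (Fin (n + 1)) (HahnSeries ℤ L)).comp
      (RingHom.pi fun j : Fin (n + 1) => (HahnSeries.C : L →+* HahnSeries ℤ L).comp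
        ((τ ^ (j : ℕ) : L ≃ₐ[K] L) : L →+* L)) with hf
  have hfa : ∀ (b : L) (i j : Fin (n + 1)), f b i j =
      if i = j then HahnSeries.C ((τ ^ (i : ℕ)) b) else 0 := by
    intro b i j
    show (Matrix.diagonal fun j : Fin (n + 1) => HahnSeries.C ((τ ^ (j : ℕ)) b)) i j = _
    rw [Matrix.diagonal_apply]
  have hfD : ∀ b, f b ∈ D := by
    intro b
    rw [hD, divaD_iff']
    intro i j
    rw [hfa, hfa]
    by_cases hij : i = j + 1
    · have h2 : i - 1 = j := by rw [hij, add_sub_cancel_right]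
      rw [if_pos h2, if_pos hij, hs, divaS_C, mul_comm, ← hij, h2]
      congr 2
      have h3 := hstep j b
      rw [← hij] at h3
      rw [h3, pow_succ']
      rfl
    · have h2 : ¬ i - 1 = j := fun h => hij (by rw [← h, sub_add_cancel])
      rw [if_neg h2, if_neg hij, map_zero, mul_zero, zero_mul]
  have hPD : divaP t ∈ D := by
    rw [hD, divaD_iff]
    have h1 : (divaP t : Matrix (Fin (n + 1)) (Fin (n + 1)) (HahnSeries ℤ L)).map s = divaP t := by
      ext1 i j
      rw [Matrix.map_apply]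
      unfold divaP divaC
      split_ifs
      · rw [hs, ht, divaS_T]
      · rw [map_one]
      · rw [map_zero]
    rw [h1]
  letI inst : DivisionRing D := DivisionRing.ofIsUnitOrEqZero (by
    rintro ⟨m, hm⟩
    by_cases hm0 : m = 0
    · right
      exact Subtype.ext hm0
    · left
      have hu := diva_unit (v := HahnSeries.addVal ℤ L) (divaS_val (τ : L →+* L)) diva_val_T hm hm0
      obtain ⟨u, hu⟩ := hu
      have h1 : m * (u⁻¹).val = 1 := by rw [← hu]; exact u.mul_inv
      have h2 : (u⁻¹).val * m = 1 := by rw [← hu]; exact u.inv_mul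
      exact ⟨⟨⟨m, hm⟩, ⟨(u⁻¹).val, diva_inv hm h1 h2⟩, Subtype.ext h1, Subtype.ext h2⟩, rfl⟩)
  letI alg : Algebra K (HahnSeries ℤ L) :=
    RingHom.toAlgebra ((HahnSeries.C : L →+* HahnSeries ℤ L).comp (algebraMap K L))
  refine ⟨HahnSeries ℤ L, inferInstance, alg, D, inst, D.subtype, f.codRestrict D hfD, ⟨divaP t, hPD⟩, Subtype.coe_injective, ?_, ?_, ?_⟩
  · intro b
    apply Subtype.ext
    show divaP t * f b = f (σ b) * divaP t
    ext1 i j
    rw [divaP_mul, divaP_mul', hfa, hfa]
    by_cases hij : i = j + 1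
    · have h2 : i - 1 = j := by rw [hij, add_sub_cancel_right]
      rw [if_pos h2, if_pos hij, mul_comm, ← hij, h2]
      congr 2
      have h3 := hstep j (σ b)
      rw [← hij] at h3
      rw [h3, pow_succ]
      show _ = (τ ^ (j : ℕ)) (τ (σ b))
      congr 1
      rw [hτ]
      exact (σ.symm_apply_apply b).symm
    · have h2 : ¬ i - 1 = j := fun h => hij (by rw [← h, sub_add_cancel])
      rw [if_neg h2, if_neg hij, mul_zero, zero_mul]
  · intro c
    show f (algebraMap K L c) = _
    ext1 i j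
    rw [hfa, Matrix.algebraMap_matrix_apply, AlgEquiv.commutes]
    rfl
  · intro a ha
    have hpow : ∀ (k : ℕ), k < n + 1 → ∀ i : Fin (n + 1),
        ((divaP t) ^ k : Matrix (Fin (n + 1)) (Fin (n + 1)) (HahnSeries ℤ L)) i 0 =
          if (i : ℕ) = k then 1 else 0 := by
      intro k
      induction k with
      | zero =>
        intro _ i
        rw [pow_zero, Matrix.one_apply]
        by_cases hi : i = 0
        · rw [if_pos hi, if_pos (by rw [hi]; rfl)]
        · rw [if_neg hi, if_neg (fun h : (i : ℕ) = 0 => hi (Fin.ext h))]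
      | succ k ih =>
        intro hk i
        rw [pow_succ', divaP_mul, ih (by omega), Fin.coe_sub_one]
        unfold divaC
        by_cases hi : i = 0
        · rw [if_pos hi, if_pos hi, if_neg (by omega), mul_zero, if_neg (by rw [hi]; simp)]
        · have h1 : 1 ≤ (i : ℕ) := Nat.one_le_iff_ne_zero.2 (fun h => hi (Fin.ext h))
          rw [if_neg hi, if_neg hi, one_mul]
          by_cases h2 : (i : ℕ) = k + 1
          · rw [if_pos (by omega), if_pos h2]
          · rw [if_neg (by omega), if_neg h2]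
    have h1 : ∑ k : Fin (n + 1), f (a k) * (divaP t) ^ (k : ℕ) = 0 := by
      have h2 := congrArg D.subtype ha
      rw [map_sum, map_zero] at h2
      exact h2
    ext i
    have h3 := congrFun (congrFun h1 i) 0
    rw [Matrix.sum_apply] at h3
    have h4 : ∀ k : Fin (n + 1), (f (a k) * (divaP t) ^ (k : ℕ) :
        Matrix (Fin (n + 1)) (Fin (n + 1)) (HahnSeries ℤ L)) i 0 =
        if k = i then HahnSeries.C ((τ ^ (i : ℕ)) (a i)) else 0 := by
      intro k
      rw [Matrix.mul_apply]
      have h5 : ∀ l : Fin (n + 1), f (a k) i l * ((divaP t) ^ (k : ℕ) :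
          Matrix (Fin (n + 1)) (Fin (n + 1)) (HahnSeries ℤ L)) l 0 =
          if l = i then (if k = i then HahnSeries.C ((τ ^ (i : ℕ)) (a i)) else 0) else 0 := by
        intro l
        rw [hfa, hpow k k.2]
        by_cases hl : l = i
        · rw [if_pos hl.symm, if_pos hl, hl]
          by_cases hk : k = i
          · rw [if_pos hk, if_pos (by rw [hk]), hk, mul_one]
          · rw [if_neg hk, if_neg (fun h => hk (Fin.ext h).symm), mul_zero]
        · rw [if_neg (fun h => hl h.symm), if_neg hl, zero_mul]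
      simp only [h5, Finset.sum_ite_eq', Finset.mem_univ, if_true]
    simp only [h4, Finset.sum_ite_eq', Finset.mem_univ, if_true, Matrix.zero_apply] at h3
    have h6 : (τ ^ (i : ℕ)) (a i) = 0 := by
      have h7 := congrArg (fun x => x.coeff 0) h3
      simpa using h7
    rwa [map_eq_zero] at h6

end Pool.Agent.TH376.GE
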