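import Mathlib

/-!
# Good endomorphisms of free algebras: definitions
-/

set_option autoImplicit false

open FreeAlgebra Matrix

namespace Pool.Agent.TH376.GE

/-- the augmentation ideal of the free algebra: the elements without constant term -/
def aug (K : Type) [Field K] (n : ℕ) : Submodule K (FreeAlgebra K (Fin n)) :=
  LinearMap.ker (FreeAlgebra.lift K (fun _ : Fin n => (0 : K))).toLinearMap

/-- An endomorphism `φ` of the free algebra is good if for every `m ≥ 1` it is a product `ψ α` of an
automorphism `α` and an endomorphism `ψ` with `ψ (x_i) ≡ x_i` modulo the `m`-th power of the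
augmentation ideal. -/
def Good {K : Type} [Field K] {n : ℕ}
    (φ : FreeAlgebra K (Fin n) →ₐ[K] FreeAlgebra K (Fin n)) : Prop :=
  ∀ m : ℕ, 1 ≤ m → ∃ (ψ : FreeAlgebra K (Fin n) →ₐ[K] FreeAlgebra K (Fin n))
    (α : FreeAlgebra K (Fin n) ≃ₐ[K] FreeAlgebra K (Fin n)),
    (∀ a, φ a = ψ (α a)) ∧ ∀ i, ψ (ι K i) - ι K i ∈ (aug K n) ^ m

/-- the words of length less than `d` -/
def words (n d : ℕ) : Finset (List (Fin n)) :=
  (Finset.range d).biUnion fun k => (Finset.univ : Finset (Fin k → Fin n)).image List.ofFn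

/-- the inverse of a series `1 + ∑ w m_w` whose coefficients are matrices: `V * M = 1` -/
def inv {n : ℕ} {κ S : Type} [Fintype κ] [DecidableEq κ] [Ring S]
    (m : List (Fin n) → Matrix κ κ S) (w : List (Fin n)) : Matrix κ κ S :=
  if w = [] then 1 else - ∑ k : Fin w.length, inv m (w.take k) * m (w.drop k)
termination_by w.length
decreasing_by
  simp only [List.length_take]
  omega

theorem mem_words {n d : ℕ} {w : List (Fin n)} : w ∈ words n d ↔ w.length < d := by
  unfold words
  simp only [Finset.mem_biUnion, Finset.mem_range, Finset.mem_image, Finset.mem_univ, true_and]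
  constructor
  · rintro ⟨k, hk, a, rfl⟩
    simpa using hk
  · intro h
    exact ⟨w.length, h, w.get, List.ofFn_get w⟩

/-- `f` has the pair property: the off-diagonal block of `f_i` at `[[X, E], [0, Y]]` determines `E`.
-/
def Pair {K : Type} [Field K] {n : ℕ} (f : Fin n → FreeAlgebra K (Fin n)) : Prop :=
  ∀ (F : Type) [Field F] [Algebra K F] (N N' : ℕ) (X : Fin n → Matrix (Fin N) (Fin N) F)
    (Y : Fin n → Matrix (Fin N') (Fin N') F) (E : Fin n → Matrix (Fin N) (Fin N') F),
    (∀ i, (FreeAlgebra.lift K (fun j => fromBlocks (X j) (E j) 0 (Y j)) (f i)).toBlocks₁₂ = 0) →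
      E = 0

/-- every tuple of matrices over an algebraically closed field is a value of `f` -/
def Onto {K : Type} [Field K] {n : ℕ} (f : Fin n → FreeAlgebra K (Fin n)) : Prop :=
  ∀ (F : Type) [Field F] [Algebra K F] [IsAlgClosed F] (N : ℕ)
    (Y : Fin n → Matrix (Fin N) (Fin N) F),
    ∃ X : Fin n → Matrix (Fin N) (Fin N) F, ∀ i, FreeAlgebra.lift K X (f i) = Y i

/-- the universal differences of the generators are combinations of those of the `f_j` -/
def Epi {K : Type} [Field K] {n : ℕ} (f : Fin n → FreeAlgebra K (Fin n)) : Prop :=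
  ∀ i : Fin n, (ι K i ⊗ₜ[K] (1 : FreeAlgebra K (Fin n)) - 1 ⊗ₜ[K] ι K i :
      TensorProduct K (FreeAlgebra K (Fin n)) (FreeAlgebra K (Fin n))) ∈
    Submodule.span K {t | ∃ (j : Fin n) (p q : FreeAlgebra K (Fin n)),
      t = (p * f j) ⊗ₜ[K] q - p ⊗ₜ[K] (f j * q)}

/-- the monomial attached to a word -/
def wd (K : Type) [Field K] {n : ℕ} (w : List (Fin n)) : FreeAlgebra K (Fin n) :=
  (w.map (ι K)).prod

/-- value of the endomorphism `φ` at a tuple of matrices -/
def val {K S : Type} [Field K] [CommRing S] [Algebra K S] {n N : ℕ}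
    (φ : FreeAlgebra K (Fin n) →ₐ[K] FreeAlgebra K (Fin n))
    (X : Fin n → Matrix (Fin N) (Fin N) S) : Fin n → Matrix (Fin N) (Fin N) S :=
  fun i => FreeAlgebra.lift K X (φ (ι K i))

/-- derivative of the endomorphism `φ` at `X` in the direction `E` -/
def jac {K S : Type} [Field K] [CommRing S] [Algebra K S] {n N : ℕ}
    (φ : FreeAlgebra K (Fin n) →ₐ[K] FreeAlgebra K (Fin n))
    (X E : Fin n → Matrix (Fin N) (Fin N) S) : Fin n → Matrix (Fin N) (Fin N) S :=
  fun i => (FreeAlgebra.lift K (fun j => fromBlocks (X j) (E j) 0 (X j)) (φ (ι K i))).toBlocks₁₂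

end Pool.Agent.TH376.GE
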