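import Pool.Agent.TH376.GE.Defs

/-!
# The generators lie in the subalgebra generated by the `f_j`
-/

set_option autoImplicit false

open FreeAlgebra Matrix

namespace Pool.Agent.TH376.GE

variable {K : Type} [Field K] {n : ℕ}

/-- left multiplication by an element of a subalgebra on the quotient by the subalgebra -/
noncomputable def FINAL_mul {A : Type} [Ring A] [Algebra K A] (B : Subalgebra K A) (a : A)
    (ha : a ∈ B) : (A ⧸ Subalgebra.toSubmodule B) →ₗ[K] (A ⧸ Subalgebra.toSubmodule B) :=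
  Submodule.mapQ _ _ (LinearMap.mulLeft K a) (by
    intro x hx
    rw [Submodule.mem_comap, LinearMap.mulLeft_apply]
    exact B.mul_mem ha hx)

theorem FINAL_mul_mk {A : Type} [Ring A] [Algebra K A] (B : Subalgebra K A) (a : A)
    (ha : a ∈ B) (x : A) : FINAL_mul B a ha (Submodule.mkQ _ x) = Submodule.mkQ _ (a * x) := rfl

/-- evaluation of the relation -/
theorem FINAL_core {F : Type} [Field F] [Algebra K F] {N : ℕ}
    (X : Fin n → Matrix (Fin N) (Fin N) F) (co : FreeAlgebra K (Fin n) →ₗ[K] (Fin N → F))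
    (f : Fin n → FreeAlgebra K (Fin n)) {m : ℕ} (c : Fin m → K) (j : Fin m → Fin n)
    (p q : Fin m → FreeAlgebra K (Fin n)) (i : Fin n)
    (hrel : ∑ k, c k • ((p k * f (j k)) ⊗ₜ[K] q k - p k ⊗ₜ[K] (f (j k) * q k)) =
      (ι K i ⊗ₜ[K] (1 : FreeAlgebra K (Fin n)) - 1 ⊗ₜ[K] ι K i :
        TensorProduct K (FreeAlgebra K (Fin n)) (FreeAlgebra K (Fin n))))
    (h : ∀ k, FreeAlgebra.lift K X (f (j k)) *ᵥ co (q k) = co (f (j k) * q k))
    (h1 : co 1 = 0) : co (ι K i) = 0 := by
  let bil : FreeAlgebra K (Fin n) →ₗ[K] FreeAlgebra K (Fin n) →ₗ[K] (Fin N → F) :=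
    LinearMap.mk₂ K (fun p q => FreeAlgebra.lift K X p *ᵥ co q)
      (fun p p' q => by rw [map_add, Matrix.add_mulVec])
      (fun r p q => by rw [map_smul, Matrix.smul_mulVec])
      (fun p q q' => by rw [map_add, Matrix.mulVec_add])
      (fun r p q => by rw [map_smul, Matrix.mulVec_smul])
  have hbil : ∀ p q, bil p q = FreeAlgebra.lift K X p *ᵥ co q := fun p q => rfl
  have hl1 : FreeAlgebra.lift K X (1 : FreeAlgebra K (Fin n)) = 1 := map_one _
  have hΦ : ∀ p q, TensorProduct.lift bil (p ⊗ₜ[K] q) = FreeAlgebra.lift K X p *ᵥ co q := by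
    intro p q
    rw [TensorProduct.lift.tmul, hbil]
  have hzero := congrArg (TensorProduct.lift bil) hrel
  rw [map_sum, map_sub, hΦ, hΦ, hl1, Matrix.one_mulVec, h1, Matrix.mulVec_zero,
    zero_sub] at hzero
  have h2 : ∑ k, TensorProduct.lift bil
      (c k • ((p k * f (j k)) ⊗ₜ[K] q k - p k ⊗ₜ[K] (f (j k) * q k))) = 0 := by
    refine Finset.sum_eq_zero fun k _ => ?_
    rw [map_smul, map_sub, hΦ, hΦ, map_mul, ← Matrix.mulVec_mulVec, h k, sub_self, smul_zero]
  rw [h2] at hzero
  exact (neg_eq_zero.1 hzero.symm)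

theorem mem_adjoin (f : Fin n → FreeAlgebra K (Fin n)) (hE : Epi f) (hO : Onto f) (i : Fin n) :
    ι K i ∈ Algebra.adjoin K (Set.range f) := by
  classical
  set B : Subalgebra K (FreeAlgebra K (Fin n)) := Algebra.adjoin K (Set.range f) with hB
  have hfB : ∀ j, f j ∈ B := fun j => Algebra.subset_adjoin ⟨j, rfl⟩
  -- the quotient
  let V := FreeAlgebra K (Fin n) ⧸ Subalgebra.toSubmodule B
  let lam : FreeAlgebra K (Fin n) →ₗ[K] V := Submodule.mkQ _
  have hlam : ∀ x, lam x = 0 ↔ x ∈ B := by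
    intro x
    have := Submodule.Quotient.mk_eq_zero (Subalgebra.toSubmodule B) (x := x)
    exact this
  let Lj : Fin n → V →ₗ[K] V := fun j => FINAL_mul B (f j) (hfB j)
  have hLj : ∀ j x, Lj j (lam x) = lam (f j * x) := fun j x => rfl
  -- the relation
  obtain ⟨m, c, g, hg⟩ := Submodule.mem_span_set'.1 (hE i)
  choose j p q hpq using fun k => (g k).2
  -- the finite-dimensional subspace
  let W : Submodule K V := Submodule.span K (Set.range (fun k => lam (q k)) ∪ {lam (ι K i)})
  have hWfin : FiniteDimensional K W :=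
    FiniteDimensional.span_of_finite K ((Set.finite_range _).union (Set.finite_singleton _))
  have hqW : ∀ k, lam (q k) ∈ W := fun k => Submodule.subset_span (Or.inl ⟨k, rfl⟩)
  have hiW : lam (ι K i) ∈ W := Submodule.subset_span (Or.inr rfl)
  obtain ⟨π, hπ⟩ := LinearMap.exists_leftInverse_of_injective W.subtype (by
    rw [Submodule.ker_subtype])
  have hπ' : ∀ (v : V) (hv : v ∈ W), π v = ⟨v, hv⟩ := by
    intro v hv
    have := LinearMap.congr_fun hπ ⟨v, hv⟩
    simpa using this
  let b := Module.finBasis K W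
  let F := AlgebraicClosure K
  let Y : Fin n → Matrix (Fin (Module.finrank K W)) (Fin (Module.finrank K W)) F := fun j =>
    (LinearMap.toMatrix b b (π ∘ₗ Lj j ∘ₗ W.subtype)).map (algebraMap K F)
  obtain ⟨X, hX⟩ := hO F (Module.finrank K W) Y
  -- coordinates
  let co : V →ₗ[K] (Fin (Module.finrank K W) → F) :=
    { toFun := fun v a => algebraMap K F (b.repr (π v) a)
      map_add' := fun v w => by
        funext a
        simp
      map_smul' := fun r v => by
        funext a
        simp [Algebra.smul_def] }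
  have hco : ∀ v a, co v a = algebraMap K F (b.repr (π v) a) := fun v a => rfl
  have hY : ∀ (j : Fin n) (v : V), v ∈ W → Y j *ᵥ co v = co (Lj j v) := by
    intro j v hv
    have h1 := LinearMap.toMatrix_mulVec_repr b b (π ∘ₗ Lj j ∘ₗ W.subtype) ⟨v, hv⟩
    funext a
    have h2 := congrFun h1 a
    have h3 := congrArg (algebraMap K F) h2
    have h4 : algebraMap K F (b.repr ((π ∘ₗ Lj j ∘ₗ W.subtype) ⟨v, hv⟩) a) = co (Lj j v) a := rfl
    rw [← h4, ← h3]
    rw [Matrix.mulVec, Matrix.mulVec, dotProduct, dotProduct, map_sum]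
    refine Finset.sum_congr rfl fun x _ => ?_
    rw [map_mul, hco, hπ' v hv]
    rfl
  have hzero : (co ∘ₗ lam) (ι K i) = 0 := by
    refine FINAL_core X (co ∘ₗ lam) f c j p q i ?_ ?_ ?_
    · rw [← hg]
      refine Finset.sum_congr rfl fun k _ => ?_
      rw [hpq k]
    · intro k
      rw [hX, LinearMap.comp_apply, LinearMap.comp_apply, hY _ _ (hqW k), hLj]
    · rw [LinearMap.comp_apply, (hlam 1).2 B.one_mem, map_zero]
  rw [LinearMap.comp_apply] at hzero
  have h5 : π (lam (ι K i)) = 0 := by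
    apply b.repr.injective
    ext a
    have h6 := congrFun hzero a
    rw [hco] at h6
    have h7 := (map_eq_zero (algebraMap K F)).1 h6
    rw [h7]
    simp
  rw [hπ' _ hiW] at h5
  have h8 : lam (ι K i) = 0 := congrArg Subtype.val h5
  exact (hlam _).1 h8

end Pool.Agent.TH376.GE
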