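import Pool.Agent.TH376.GE.Defs

/-!
# Pairs from squares
-/

set_option autoImplicit false

open FreeAlgebra Matrix

namespace Pool.Agent.TH376.GE

variable {K : Type} [Field K] {n : ℕ}

namespace PairAux

theorem algebraMap_blocks {F : Type} [Field F] [Algebra K F] {l m : Type} [Fintype l] [Fintype m]
    [DecidableEq l] [DecidableEq m] (r : K) :
    algebraMap K (Matrix (l ⊕ m) (l ⊕ m) F) r =
      fromBlocks (algebraMap K (Matrix l l F) r) 0 0 (algebraMap K (Matrix m m F) r) := by
  ext i j
  rw [Matrix.algebraMap_matrix_apply]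
  rcases i with i | i <;> rcases j with j | j <;>
    simp [Matrix.algebraMap_matrix_apply]

/-- the values at `[[X, E], [0, Y]]` and at the square built from it -/
theorem blocks {F : Type} [Field F] [Algebra K F] {l m : Type} [Fintype l] [Fintype m]
    [DecidableEq l] [DecidableEq m] (X : Fin n → Matrix l l F) (Y : Fin n → Matrix m m F)
    (E : Fin n → Matrix l m F) (a : FreeAlgebra K (Fin n)) :
    ∃ (x : Matrix l l F) (y : Matrix m m F) (e : Matrix l m F),
      FreeAlgebra.lift K (fun j => fromBlocks (X j) (E j) 0 (Y j)) a = fromBlocks x e 0 y ∧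
      FreeAlgebra.lift K (fun j => fromBlocks (fromBlocks (X j) 0 0 (Y j))
        (fromBlocks 0 (E j) 0 0) 0 (fromBlocks (X j) 0 0 (Y j))) a =
        fromBlocks (fromBlocks x 0 0 y) (fromBlocks 0 e 0 0) 0 (fromBlocks x 0 0 y) := by
  induction a using FreeAlgebra.induction with
  | grade0 r =>
    refine ⟨algebraMap K _ r, algebraMap K _ r, 0, ?_, ?_⟩
    · rw [AlgHom.commutes, algebraMap_blocks]
    · rw [AlgHom.commutes, algebraMap_blocks, algebraMap_blocks, fromBlocks_zero]
  | grade1 i =>
    exact ⟨X i, Y i, E i, by rw [FreeAlgebra.lift_ι_apply], by rw [FreeAlgebra.lift_ι_apply]⟩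
  | mul a b ha hb =>
    obtain ⟨x, y, e, h1, h2⟩ := ha
    obtain ⟨x', y', e', h3, h4⟩ := hb
    refine ⟨x * x', y * y', x * e' + e * y', ?_, ?_⟩
    · rw [map_mul, h1, h3, fromBlocks_multiply]
      simp
    · rw [map_mul, h2, h4, fromBlocks_multiply]
      simp [fromBlocks_multiply, fromBlocks_add]
  | add a b ha hb =>
    obtain ⟨x, y, e, h1, h2⟩ := ha
    obtain ⟨x', y', e', h3, h4⟩ := hb
    refine ⟨x + x', y + y', e + e', ?_, ?_⟩
    · rw [map_add, h1, h3, fromBlocks_add]
      simp
    · rw [map_add, h2, h4, fromBlocks_add]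
      simp [fromBlocks_add]

theorem lift_reindex {F : Type} [Field F] [Algebra K F] {l m : Type} [Fintype l] [Fintype m]
    [DecidableEq l] [DecidableEq m] (e : l ≃ m) (Z : Fin n → Matrix l l F)
    (a : FreeAlgebra K (Fin n)) :
    FreeAlgebra.lift K (fun j => (Z j).submatrix e.symm e.symm) a =
      (FreeAlgebra.lift K Z a).submatrix e.symm e.symm := by
  have h : FreeAlgebra.lift K (fun j => (Z j).submatrix e.symm e.symm) =
      (Matrix.reindexAlgEquiv K F e).toAlgHom.comp (FreeAlgebra.lift K Z) := by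
    apply FreeAlgebra.hom_ext
    funext i
    simp [Matrix.reindex_apply]
  rw [h]
  rfl

end PairAux

open PairAux in
theorem pair_of_jac (φ : FreeAlgebra K (Fin n) →ₐ[K] FreeAlgebra K (Fin n))
    (h : ∀ (F : Type) [Field F] [Algebra K F] (N : ℕ) (X E : Fin n → Matrix (Fin N) (Fin N) F),
      jac φ X E = 0 → E = 0) : Pair (fun i => φ (ι K i)) := by
  intro F _ _ N N' X Y E hE
  set s : Fin N ⊕ Fin N' ≃ Fin (N + N') := finSumFinEquiv with hs
  have key := h F (N + N') (fun j => (fromBlocks (X j) 0 0 (Y j)).submatrix s.symm s.symm)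
    (fun j => (fromBlocks 0 (E j) 0 0 : Matrix (Fin N ⊕ Fin N') (Fin N ⊕ Fin N') F).submatrix
      s.symm s.symm) (by
    funext i
    unfold jac
    have h1 : (fun j => fromBlocks ((fromBlocks (X j) 0 0 (Y j)).submatrix s.symm s.symm)
        ((fromBlocks 0 (E j) 0 0 : Matrix (Fin N ⊕ Fin N') (Fin N ⊕ Fin N') F).submatrix
          s.symm s.symm) 0 ((fromBlocks (X j) 0 0 (Y j)).submatrix s.symm s.symm)) =
        fun j => (fromBlocks (fromBlocks (X j) 0 0 (Y j)) (fromBlocks 0 (E j) 0 0) 0
          (fromBlocks (X j) 0 0 (Y j))).submatrix (s.sumCongr s).symm (s.sumCongr s).symm := by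
      funext j
      ext a b
      rcases a with a | a <;> rcases b with b | b <;> simp
    rw [h1, lift_reindex]
    obtain ⟨x, y, e, h2, h3⟩ := blocks (K := K) X Y E (φ (ι K i))
    have h4 := hE i
    rw [h2, toBlocks_fromBlocks₁₂] at h4
    rw [h3, h4]
    ext a b
    simp [toBlocks₁₂])
  funext j
  have h5 := congrFun key j
  ext a b
  have h6 := congrFun (congrFun h5 (s (Sum.inl a))) (s (Sum.inr b))
  simpa using h6

end Pool.Agent.TH376.GE
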