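import Pool.Agent.TH376.GE.Defs

/-!
# Expansion of the universal derivation of the free algebra
-/

set_option autoImplicit false

open FreeAlgebra Matrix

namespace Pool.Agent.TH376.GE

variable {K : Type} [Field K] {n : ℕ}

namespace QUOT

lemma sum_words_succ {M : Type} [AddCommMonoid M] (d : ℕ) (g : List (Fin n) → M) :
    ∑ w ∈ words n (d + 1), g w = g [] + ∑ i, ∑ w ∈ words n d, g (i :: w) := by
  classical
  have h : words n (d + 1) = insert [] ((Finset.univ ×ˢ words n d).image
      (fun p : Fin n × List (Fin n) => p.1 :: p.2)) := by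
    ext w
    rw [mem_words]
    rcases w with _ | ⟨i, w⟩
    · simp
    · simp [mem_words]
  have hinj : Function.Injective (fun p : Fin n × List (Fin n) => p.1 :: p.2) := by
    rintro ⟨i, w⟩ ⟨i', w'⟩ h0
    simpa using h0
  rw [h, Finset.sum_insert (by simp), Finset.sum_image (fun x _ y _ h0 => hinj h0),
    Finset.sum_product]

lemma wd_cons (i : Fin n) (w : List (Fin n)) : wd K (i :: w) = ι K i * wd K w := by
  simp [wd]

lemma wd_nil : wd K ([] : List (Fin n)) = 1 := by simp [wd]

/-- the summand -/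
def T (K : Type) [Field K] {n : ℕ} (j : Fin n) (w : List (Fin n)) :
    FreeAlgebra K (Fin n) →ₗ[K] TensorProduct K (FreeAlgebra K (Fin n)) (FreeAlgebra K (Fin n)) :=
  TensorProduct.mk K _ _ (wd K w * ι K j) -
    TensorProduct.mk K _ _ (wd K w) ∘ₗ LinearMap.mulLeft K (ι K j)

lemma T_apply (j : Fin n) (w : List (Fin n)) (a : FreeAlgebra K (Fin n)) :
    T K j w a = (wd K w * ι K j) ⊗ₜ[K] a - wd K w ⊗ₜ[K] (ι K j * a) := rfl

/-- the universal difference -/
def DD (K : Type) [Field K] (n : ℕ) :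
    FreeAlgebra K (Fin n) →ₗ[K] TensorProduct K (FreeAlgebra K (Fin n)) (FreeAlgebra K (Fin n)) :=
  (TensorProduct.mk K _ _).flip 1 - TensorProduct.mk K _ _ 1

lemma DD_apply (f : FreeAlgebra K (Fin n)) :
    DD K n f = f ⊗ₜ[K] (1 : FreeAlgebra K (Fin n)) - (1 : FreeAlgebra K (Fin n)) ⊗ₜ[K] f := rfl

/-- the off-diagonal block -/
def blk {F : Type} [Field F] [Algebra K F] {N N' : ℕ} (X : Fin n → Matrix (Fin N) (Fin N) F)
    (Y : Fin n → Matrix (Fin N') (Fin N') F) (E : Fin n → Matrix (Fin N) (Fin N') F) :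
    FreeAlgebra K (Fin n) →ₗ[K] Matrix (Fin N) (Fin N') F where
  toFun f := (FreeAlgebra.lift K (fun j => fromBlocks (X j) (E j) 0 (Y j)) f).toBlocks₁₂
  map_add' a b := by rw [map_add]; rfl
  map_smul' r a := by rw [map_smul]; rfl

/-- the summand -/
def S {F : Type} [Field F] [Algebra K F] {N N' : ℕ} (X : Fin n → Matrix (Fin N) (Fin N) F)
    (Y : Fin n → Matrix (Fin N') (Fin N') F) (E : Fin n → Matrix (Fin N) (Fin N') F)
    (j : Fin n) (w : List (Fin n)) :
    FreeAlgebra K (Fin n) →ₗ[K] Matrix (Fin N) (Fin N') F where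
  toFun a := (w.map X).prod * E j * FreeAlgebra.lift K Y a
  map_add' a b := by rw [map_add, Matrix.mul_add]
  map_smul' r a := by rw [map_smul, Matrix.mul_smul]; rfl

lemma S_apply {F : Type} [Field F] [Algebra K F] {N N' : ℕ} (X : Fin n → Matrix (Fin N) (Fin N) F)
    (Y : Fin n → Matrix (Fin N') (Fin N') F) (E : Fin n → Matrix (Fin N) (Fin N') F)
    (j : Fin n) (w : List (Fin n)) (a : FreeAlgebra K (Fin n)) :
    S X Y E j w a = (w.map X).prod * E j * FreeAlgebra.lift K Y a := rfl

/-- the property -/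
def QP (f : FreeAlgebra K (Fin n)) (d : ℕ)
    (c : Fin n → List (Fin n) → FreeAlgebra K (Fin n)) : Prop :=
  (∀ j w, d ≤ w.length → c j w = 0) ∧
    DD K n f = ∑ j, ∑ w ∈ words n d, T K j w (c j w) ∧
    ∀ (F : Type) [Field F] [Algebra K F] (N N' : ℕ) (X : Fin n → Matrix (Fin N) (Fin N) F)
      (Y : Fin n → Matrix (Fin N') (Fin N') F) (E : Fin n → Matrix (Fin N) (Fin N') F),
      blk X Y E f = ∑ j, ∑ w ∈ words n d, S X Y E j w (c j w)

lemma sum_ext {M : Type} [AddCommGroup M] [Module K M] {d d' : ℕ} (hd : d ≤ d')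
    (c : Fin n → List (Fin n) → FreeAlgebra K (Fin n)) (hc : ∀ j w, d ≤ w.length → c j w = 0)
    (g : Fin n → List (Fin n) → FreeAlgebra K (Fin n) →ₗ[K] M) :
    ∑ j, ∑ w ∈ words n d, g j w (c j w) = ∑ j, ∑ w ∈ words n d', g j w (c j w) := by
  refine Finset.sum_congr rfl fun j _ => Finset.sum_subset (fun w hw => ?_) fun w _ hw => ?_
  · rw [mem_words] at hw ⊢
    omega
  · rw [mem_words, not_lt] at hw
    rw [hc j w hw, map_zero]

lemma QP_mono {f : FreeAlgebra K (Fin n)} {d d' : ℕ}
    {c : Fin n → List (Fin n) → FreeAlgebra K (Fin n)} (h : QP f d c) (hd : d ≤ d') :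
    QP f d' c := by
  obtain ⟨h1, h2, h3⟩ := h
  refine ⟨fun j w hw => h1 j w (hd.trans hw), ?_, fun F _ _ N N' X Y E => ?_⟩
  · rw [h2, sum_ext hd c h1]
  · rw [h3 F N N' X Y E, sum_ext hd c h1]

lemma QP_add {f f' : FreeAlgebra K (Fin n)} {d : ℕ}
    {c c' : Fin n → List (Fin n) → FreeAlgebra K (Fin n)} (h : QP f d c) (h' : QP f' d c') :
    QP (f + f') d (fun j w => c j w + c' j w) := by
  obtain ⟨h1, h2, h3⟩ := h
  obtain ⟨h1', h2', h3'⟩ := h'
  refine ⟨fun j w hw => by simp only [h1 j w hw, h1' j w hw, add_zero], ?_,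
    fun F _ _ N N' X Y E => ?_⟩
  · rw [map_add, h2, h2']
    simp only [map_add, Finset.sum_add_distrib]
  · rw [map_add, h3 F N N' X Y E, h3' F N N' X Y E]
    simp only [map_add, Finset.sum_add_distrib]

lemma QP_smul {f : FreeAlgebra K (Fin n)} {d : ℕ}
    {c : Fin n → List (Fin n) → FreeAlgebra K (Fin n)} (r : K) (h : QP f d c) :
    QP (r • f) d (fun j w => r • c j w) := by
  obtain ⟨h1, h2, h3⟩ := h
  refine ⟨fun j w hw => by simp only [h1 j w hw, smul_zero], ?_, fun F _ _ N N' X Y E => ?_⟩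
  · rw [map_smul, h2]
    simp only [map_smul, Finset.smul_sum]
  · rw [map_smul, h3 F N N' X Y E]
    simp only [map_smul, Finset.smul_sum]

/-- the coefficients of a word -/
def cc (K : Type) [Field K] {n : ℕ} : List (Fin n) → Fin n → List (Fin n) →
    FreeAlgebra K (Fin n)
  | [], _, _ => 0
  | i :: u, j, [] => if j = i then wd K u else 0
  | i :: u, j, i' :: w => if i' = i then cc K u j w else 0

lemma blk22 {F : Type} [Field F] [Algebra K F] {N N' : ℕ} (X : Fin n → Matrix (Fin N) (Fin N) F)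
    (Y : Fin n → Matrix (Fin N') (Fin N') F) (E : Fin n → Matrix (Fin N) (Fin N') F)
    (u : List (Fin n)) :
    (FreeAlgebra.lift K (fun j => fromBlocks (X j) (E j) 0 (Y j)) (wd K u)).toBlocks₂₂ =
      FreeAlgebra.lift K Y (wd K u) := by
  induction u with
  | nil =>
    rw [wd_nil, map_one, map_one, ← Matrix.fromBlocks_one, Matrix.toBlocks_fromBlocks₂₂]
  | cons i u ih =>
    rw [wd_cons, map_mul, map_mul, FreeAlgebra.lift_ι_apply, FreeAlgebra.lift_ι_apply, ← ih]
    conv_lhs => rw [← Matrix.fromBlocks_toBlocks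
      (FreeAlgebra.lift K (fun j => fromBlocks (X j) (E j) 0 (Y j)) (wd K u))]
    rw [Matrix.fromBlocks_multiply, Matrix.toBlocks_fromBlocks₂₂, Matrix.zero_mul, zero_add]

lemma blk_cons {F : Type} [Field F] [Algebra K F] {N N' : ℕ} (X : Fin n → Matrix (Fin N) (Fin N) F)
    (Y : Fin n → Matrix (Fin N') (Fin N') F) (E : Fin n → Matrix (Fin N) (Fin N') F)
    (i : Fin n) (u : List (Fin n)) :
    blk X Y E (wd K (i :: u)) =
      X i * blk X Y E (wd K u) + E i * FreeAlgebra.lift K Y (wd K u) := by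
  rw [← blk22 X Y E]
  change (FreeAlgebra.lift K (fun j => fromBlocks (X j) (E j) 0 (Y j))
    (wd K (i :: u))).toBlocks₁₂ = X i * (FreeAlgebra.lift K
      (fun j => fromBlocks (X j) (E j) 0 (Y j)) (wd K u)).toBlocks₁₂ + _
  rw [wd_cons, map_mul, FreeAlgebra.lift_ι_apply]
  conv_lhs => rw [← Matrix.fromBlocks_toBlocks
    (FreeAlgebra.lift K (fun j => fromBlocks (X j) (E j) 0 (Y j)) (wd K u))]
  rw [Matrix.fromBlocks_multiply, Matrix.toBlocks_fromBlocks₁₂]

/-- the sum over the words of the coefficients of a word -/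
lemma sum_cc {M : Type} [AddCommGroup M] [Module K M] (i : Fin n) (u : List (Fin n)) (d : ℕ)
    (g : Fin n → List (Fin n) → FreeAlgebra K (Fin n) →ₗ[K] M) :
    ∑ j, ∑ w ∈ words n (d + 1), g j w (cc K (i :: u) j w) =
      g i [] (wd K u) + ∑ j, ∑ w ∈ words n d, g j (i :: w) (cc K u j w) := by
  have h1 : ∀ j, ∑ w ∈ words n (d + 1), g j w (cc K (i :: u) j w) =
      (if j = i then g j [] (wd K u) else 0) + ∑ w ∈ words n d, g j (i :: w) (cc K u j w) := by
    intro j
    rw [sum_words_succ]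
    congr 1
    · simp only [cc]
      split_ifs <;> simp
    · rw [Finset.sum_eq_single i]
      · refine Finset.sum_congr rfl fun w _ => ?_
        simp only [cc, if_true]
      · intro i' _ hi'
        refine Finset.sum_eq_zero fun w _ => ?_
        simp only [cc, if_neg hi', map_zero]
      · intro h0
        exact absurd (Finset.mem_univ i) h0
  simp only [h1, Finset.sum_add_distrib]
  congr 1
  rw [Finset.sum_ite_eq']
  simp

lemma QP_wd (u : List (Fin n)) : QP (wd K u) u.length (cc K u) := by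
  induction u with
  | nil =>
    refine ⟨fun j w _ => rfl, ?_, fun F _ _ N N' X Y E => ?_⟩
    · rw [wd_nil, DD_apply, sub_self]
      simp [cc]
    · have h1 : blk X Y E (wd K ([] : List (Fin n))) = 0 := by
        change (FreeAlgebra.lift K (fun j => fromBlocks (X j) (E j) 0 (Y j))
          (wd K [])).toBlocks₁₂ = 0
        rw [wd_nil, map_one, ← Matrix.fromBlocks_one, Matrix.toBlocks_fromBlocks₁₂]
      rw [h1]
      simp [cc]
  | cons i u ih =>
    obtain ⟨h1, h2, h3⟩ := ih
    refine ⟨fun j w hw => ?_, ?_, fun F _ _ N N' X Y E => ?_⟩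
    · rcases w with _ | ⟨i', w⟩
      · simp at hw
      · simp only [cc]
        split_ifs
        · exact h1 j w (by simpa using hw)
        · rfl
    · rw [List.length_cons, sum_cc]
      have h4 : ∑ j, ∑ w ∈ words n u.length, T K j (i :: w) (cc K u j w) =
          LinearMap.rTensor (FreeAlgebra K (Fin n)) (LinearMap.mulLeft K (ι K i))
            (DD K n (wd K u)) := by
        rw [h2, map_sum]
        refine Finset.sum_congr rfl fun j _ => ?_
        rw [map_sum]
        refine Finset.sum_congr rfl fun w _ => ?_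
        rw [T_apply, T_apply, map_sub, LinearMap.rTensor_tmul, LinearMap.rTensor_tmul, wd_cons,
          LinearMap.mulLeft_apply, LinearMap.mulLeft_apply, mul_assoc]
      rw [h4, DD_apply, DD_apply, T_apply, map_sub, LinearMap.rTensor_tmul,
        LinearMap.rTensor_tmul, LinearMap.mulLeft_apply, LinearMap.mulLeft_apply, wd_nil, one_mul,
        mul_one, wd_cons]
      abel
    · rw [List.length_cons, sum_cc, blk_cons, h3 F N N' X Y E]
      have h5 : ∑ j, ∑ w ∈ words n u.length, S X Y E j (i :: w) (cc K u j w) =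
          X i * ∑ j, ∑ w ∈ words n u.length, S X Y E j w (cc K u j w) := by
        rw [Matrix.mul_sum]
        refine Finset.sum_congr rfl fun j _ => ?_
        rw [Matrix.mul_sum]
        refine Finset.sum_congr rfl fun w _ => ?_
        rw [S_apply, S_apply, List.map_cons, List.prod_cons]
        simp only [Matrix.mul_assoc]
      rw [h5]
      have h6 : S X Y E i [] (wd K u) = E i * FreeAlgebra.lift K Y (wd K u) := by
        rw [S_apply, List.map_nil, List.prod_nil, Matrix.one_mul]
      rw [h6, add_comm]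

lemma mem_span (f : FreeAlgebra K (Fin n)) :
    f ∈ Submodule.span K (Set.range (wd K : List (Fin n) → FreeAlgebra K (Fin n))) := by
  induction f using FreeAlgebra.induction with
  | grade0 r =>
    rw [Algebra.algebraMap_eq_smul_one, ← wd_nil]
    exact Submodule.smul_mem _ _ (Submodule.subset_span ⟨_, rfl⟩)
  | grade1 i =>
    refine Submodule.subset_span ⟨[i], ?_⟩
    rw [wd_cons, wd_nil, mul_one]
  | mul a b ha hb =>
    have h1 := Submodule.mul_mem_mul ha hb
    rw [Submodule.span_mul_span] at h1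
    refine Submodule.span_mono ?_ h1
    rintro _ ⟨_, ⟨u, rfl⟩, _, ⟨v, rfl⟩, rfl⟩
    refine ⟨u ++ v, ?_⟩
    simp [wd]
  | add a b ha hb => exact Submodule.add_mem _ ha hb

end QUOT

open QUOT in
theorem exists_quot (f : FreeAlgebra K (Fin n)) :
    ∃ (d : ℕ) (c : Fin n → List (Fin n) → FreeAlgebra K (Fin n)),
      (∀ j w, d ≤ w.length → c j w = 0) ∧
      (f ⊗ₜ[K] (1 : FreeAlgebra K (Fin n)) - (1 : FreeAlgebra K (Fin n)) ⊗ₜ[K] f =
        ∑ j, ∑ w ∈ words n d, ((wd K w * ι K j) ⊗ₜ[K] c j w - wd K w ⊗ₜ[K] (ι K j * c j w))) ∧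
      ∀ (F : Type) [Field F] [Algebra K F] (N N' : ℕ) (X : Fin n → Matrix (Fin N) (Fin N) F)
        (Y : Fin n → Matrix (Fin N') (Fin N') F) (E : Fin n → Matrix (Fin N) (Fin N') F),
        (FreeAlgebra.lift K (fun j => fromBlocks (X j) (E j) 0 (Y j)) f).toBlocks₁₂ =
          ∑ j, ∑ w ∈ words n d, (w.map X).prod * E j * FreeAlgebra.lift K Y (c j w) := by
  have key : ∃ d c, QP f d c := by
    have hf := mem_span f
    induction hf using Submodule.span_induction with
    | mem x hx =>
      obtain ⟨u, rfl⟩ := hx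
      exact ⟨_, _, QP_wd u⟩
    | zero =>
      refine ⟨0, fun _ _ => 0, fun _ _ _ => rfl, ?_, fun F _ _ N N' X Y E => ?_⟩
      · simp
      · simp
    | add x y _ _ hx hy =>
      obtain ⟨d, c, h⟩ := hx
      obtain ⟨d', c', h'⟩ := hy
      exact ⟨max d d', _, QP_add (QP_mono h (le_max_left _ _)) (QP_mono h' (le_max_right _ _))⟩
    | smul r x _ hx =>
      obtain ⟨d, c, h⟩ := hx
      exact ⟨d, _, QP_smul r h⟩
  obtain ⟨d, c, h1, h2, h3⟩ := key
  exact ⟨d, c, h1, h2, h3⟩

end Pool.Agent.TH376.GE
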