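import Pool.Agent.TH376.GE.Defs

/-!
# Polynomial left inverse of the Jacobian matrix: the proof with the earlier pieces as hypotheses
(piece T1 of helper376's project GE; written by helper524)
-/

set_option autoImplicit false

open FreeAlgebra Matrix MulOpposite

namespace Pool.Agent.TH376.GE

variable {K : Type} [Field K] {n : ℕ}

namespace T1

theorem inv_nil {κ S : Type} [Fintype κ] [DecidableEq κ] [Ring S]
    (m : List (Fin n) → Matrix κ κ S) : inv m [] = 1 := by
  rw [inv, if_pos rfl]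

theorem inv_ne {κ S : Type} [Fintype κ] [DecidableEq κ] [Ring S]
    (m : List (Fin n) → Matrix κ κ S) {w : List (Fin n)} (hw : w ≠ []) :
    inv m w = - ∑ k : Fin w.length, inv m (w.take k) * m (w.drop k) := by
  conv_lhs => rw [inv, if_neg hw]

theorem map_inv' {κ κ' S S' : Type} [Fintype κ] [DecidableEq κ] [Fintype κ'] [DecidableEq κ']
    [Ring S] [Ring S'] (Φ : Matrix κ κ S →+* Matrix κ' κ' S')
    (m : List (Fin n) → Matrix κ κ S) (w : List (Fin n)) :
    Φ (inv m w) = inv (fun w => Φ (m w)) w := by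
  have key : ∀ N, ∀ w : List (Fin n), w.length = N →
      Φ (inv m w) = inv (fun w => Φ (m w)) w := by
    intro N
    induction N using Nat.strong_induction_on with
    | _ N ih =>
      intro w hw
      by_cases h : w = []
      · subst h
        rw [inv_nil, inv_nil, map_one]
      · rw [inv_ne _ h, inv_ne _ h, map_neg, map_sum]
        congr 1
        refine Finset.sum_congr rfl fun k _ => ?_
        rw [map_mul]
        congr 1
        refine ih (w.take k).length ?_ _ rfl
        rw [List.length_take]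
        have := k.2
        omega
  exact key _ w rfl

theorem inv_mul {κ S : Type} [Fintype κ] [DecidableEq κ] [Ring S]
    (m : List (Fin n) → Matrix κ κ S) (h1 : m [] = 1) (w : List (Fin n)) :
    ∑ k ∈ Finset.range (w.length + 1), inv m (w.take k) * m (w.drop k) =
      if w = [] then 1 else 0 := by
  rw [Finset.sum_range_succ, List.take_length, List.drop_length, h1, mul_one]
  by_cases h : w = []
  · subst h
    simp [inv_nil]
  · rw [if_neg h, Finset.sum_range (fun k => inv m (w.take k) * m (w.drop k)), inv_ne m h,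
      add_neg_cancel]

/-- evaluation on the opposite algebra -/
noncomputable def ev {F : Type} [Field F] [Algebra K F] {N : ℕ}
    (Y : Fin n → Matrix (Fin N) (Fin N) F) :
    (FreeAlgebra K (Fin n))ᵐᵒᵖ →+* Matrix (Fin N) (Fin N) F where
  toFun x := (FreeAlgebra.lift K Y (unop x))ᵀ
  map_one' := by simp
  map_mul' x y := by rw [unop_mul, map_mul, Matrix.transpose_mul]
  map_zero' := by simp
  map_add' x y := by rw [unop_add, map_add, Matrix.transpose_add]

/-- evaluation of matrices over the opposite algebra -/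
noncomputable def Ev {F : Type} [Field F] [Algebra K F] {N : ℕ}
    (Y : Fin n → Matrix (Fin N) (Fin N) F) :
    Matrix (Fin n) (Fin n) (FreeAlgebra K (Fin n))ᵐᵒᵖ →+*
      Matrix (Fin n × Fin N) (Fin n × Fin N) F :=
  (Matrix.compRingEquiv (Fin n) (Fin N) F).toRingHom.comp (ev Y).mapMatrix

theorem Ev_apply {F : Type} [Field F] [Algebra K F] {N : ℕ}
    (Y : Fin n → Matrix (Fin N) (Fin N) F)
    (P : Matrix (Fin n) (Fin n) (FreeAlgebra K (Fin n))ᵐᵒᵖ) (j l : Fin n) (a b : Fin N) :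
    Ev Y P (j, a) (l, b) = FreeAlgebra.lift K Y (unop (P j l)) b a := rfl

theorem exists_G {d : ℕ}
    (hop : ∀ (P : Matrix (Fin n) (Fin n) (FreeAlgebra K (Fin n))ᵐᵒᵖ),
      (∀ (N : ℕ) (Y : Fin n → Matrix (Fin N) (Fin N) K) (u : Fin n → Fin N → K),
        (∀ j, ∑ l, u l ᵥ* FreeAlgebra.lift K Y (unop (P j l)) = 0) → u = 0) →
      ∃ G : Matrix (Fin n) (Fin n) (FreeAlgebra K (Fin n))ᵐᵒᵖ, G * P = 1)
    (m : List (Fin n) → Matrix (Fin n) (Fin n) (FreeAlgebra K (Fin n))ᵐᵒᵖ)
    (hd : ∀ w, d ≤ w.length → m w = 0)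
    (H : ∀ (F : Type) [Field F] [Algebra K F] (N N' : ℕ) (X : Fin n → Matrix (Fin N) (Fin N) F)
      (Y : Fin n → Matrix (Fin N') (Fin N') F) (E : Fin n → Matrix (Fin N) (Fin N') F),
      (∀ i, ∑ j, ∑ w ∈ words n d,
        (w.map X).prod * E j * FreeAlgebra.lift K Y (unop (m w i j)) = 0) → E = 0) :
    ∃ G : Matrix (Fin n) (Fin n) (FreeAlgebra K (Fin n))ᵐᵒᵖ, G * m [] = 1 := by
  refine hop (m []) fun N Y u hu => ?_
  obtain ⟨E, hE⟩ : ∃ E : Fin n → Matrix (Fin 1) (Fin N) K, ∀ l p b, E l p b = u l b :=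
    ⟨fun l => Matrix.of fun _ b => u l b, fun _ _ _ => rfl⟩
  have h1 := H K 1 N 0 Y E ?_
  · funext l b
    rw [← hE l 0 b, h1]
    rfl
  · intro i
    have h2 : ∀ j, ∑ w ∈ words n d, (w.map (0 : Fin n → Matrix (Fin 1) (Fin 1) K)).prod *
        E j * FreeAlgebra.lift K Y (unop (m w i j)) =
        E j * FreeAlgebra.lift K Y (unop (m [] i j)) := by
      intro j
      rw [Finset.sum_eq_single []]
      · rw [List.map_nil, List.prod_nil, Matrix.one_mul]
      · intro w _ hw
        obtain ⟨a, w', rfl⟩ := List.exists_cons_of_ne_nil hw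
        rw [List.map_cons, List.prod_cons, Pi.zero_apply, zero_mul, Matrix.zero_mul,
          Matrix.zero_mul]
      · intro h
        rw [mem_words] at h
        rw [hd [] (by simpa using h), Matrix.zero_apply, unop_zero, map_zero, Matrix.mul_zero]
    rw [Finset.sum_congr rfl fun j _ => h2 j]
    ext p b
    have h3 := congrFun (hu i) b
    rw [Finset.sum_apply] at h3
    rw [Matrix.sum_apply, Matrix.zero_apply, ← h3.trans (Pi.zero_apply b)]
    refine Finset.sum_congr rfl fun j _ => ?_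
    rw [Matrix.mul_apply, Matrix.vecMul, dotProduct]
    refine Finset.sum_congr rfl fun q _ => ?_
    rw [hE]

theorem apply_H {d : ℕ}
    (m : List (Fin n) → Matrix (Fin n) (Fin n) (FreeAlgebra K (Fin n))ᵐᵒᵖ)
    (H : ∀ (F : Type) [Field F] [Algebra K F] (N N' : ℕ) (X : Fin n → Matrix (Fin N) (Fin N) F)
      (Y : Fin n → Matrix (Fin N') (Fin N') F) (E : Fin n → Matrix (Fin N) (Fin N') F),
      (∀ i, ∑ j, ∑ w ∈ words n d,
        (w.map X).prod * E j * FreeAlgebra.lift K Y (unop (m w i j)) = 0) → E = 0)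
    (G : Matrix (Fin n) (Fin n) (FreeAlgebra K (Fin n))ᵐᵒᵖ) (hG : G * m [] = 1)
    {F : Type} [Field F] [Algebra K F] {N : ℕ} (Y : Fin n → Matrix (Fin N) (Fin N) F)
    (N₂ : ℕ) (X : Fin n → Matrix (Fin N₂) (Fin N₂) F) (u : Fin n × Fin N → Fin N₂ → F)
    (hu : ∀ j, ∑ l, ∑ w ∈ words n d, Ev Y (G * m w) j l • ((w.map X).prod *ᵥ u l) = 0) :
    u = 0 := by
  obtain ⟨E, hE⟩ : ∃ E : Fin n → Matrix (Fin N₂) (Fin N) F, ∀ l p b, E l p b = u (l, b) p :=
    ⟨fun l => Matrix.of fun p b => u (l, b) p, fun _ _ _ => rfl⟩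
  obtain ⟨Z, hZ⟩ : ∃ Z : Fin n → Matrix (Fin N₂) (Fin N) F, ∀ i, Z i =
      ∑ l, ∑ w ∈ words n d, (w.map X).prod * E l * FreeAlgebra.lift K Y (unop (m w i l)) :=
    ⟨_, fun _ => rfl⟩
  -- the combination of the `Z i`
  have h1 : ∀ j, ∑ i, Z i * FreeAlgebra.lift K Y (unop (G j i)) =
      ∑ l, ∑ w ∈ words n d, (w.map X).prod * E l *
        FreeAlgebra.lift K Y (unop ((G * m w) j l)) := by
    intro j
    have e1 : ∀ i, Z i * FreeAlgebra.lift K Y (unop (G j i)) =
        ∑ l, ∑ w ∈ words n d, (w.map X).prod * E l *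
          (FreeAlgebra.lift K Y (unop (m w i l)) * FreeAlgebra.lift K Y (unop (G j i))) := by
      intro i
      rw [hZ, Matrix.sum_mul]
      refine Finset.sum_congr rfl fun l _ => ?_
      rw [Matrix.sum_mul]
      refine Finset.sum_congr rfl fun w _ => ?_
      rw [Matrix.mul_assoc]
    rw [Finset.sum_congr rfl fun i _ => e1 i, Finset.sum_comm]
    refine Finset.sum_congr rfl fun l _ => ?_
    rw [Finset.sum_comm]
    refine Finset.sum_congr rfl fun w _ => ?_
    rw [← Matrix.mul_sum]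
    congr 1
    rw [Matrix.mul_apply, Finset.unop_sum, map_sum]
    refine Finset.sum_congr rfl fun i _ => ?_
    rw [unop_mul, map_mul]
  have h2 : ∀ j p a, (∑ i, Z i * FreeAlgebra.lift K Y (unop (G j i))) p a = 0 := by
    intro j p a
    have h3 := congrFun (hu (j, a)) p
    rw [Finset.sum_apply] at h3
    rw [h1, Matrix.sum_apply, ← h3.trans (Pi.zero_apply p), Fintype.sum_prod_type]
    refine Finset.sum_congr rfl fun l _ => ?_
    rw [Matrix.sum_apply]
    simp only [Finset.sum_apply]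
    rw [Finset.sum_comm]
    refine Finset.sum_congr rfl fun w _ => ?_
    rw [Matrix.mul_apply]
    refine Finset.sum_congr rfl fun b _ => ?_
    rw [Pi.smul_apply, smul_eq_mul, Ev_apply, mul_comm]
    congr 1
    rw [Matrix.mul_apply, Matrix.mulVec, dotProduct]
    refine Finset.sum_congr rfl fun q _ => ?_
    rw [hE]
  have h3 : Ev Y (m []) * Ev Y G = 1 := by
    rw [mul_eq_one_comm, ← map_mul, hG, map_one]
  have h4 : ∀ i p b, Z i p b = 0 := by
    intro i p b
    obtain ⟨z, hz⟩ : ∃ z : Fin n × Fin N → F, ∀ x, z x = Z x.1 p x.2 := ⟨_, fun _ => rfl⟩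
    have h5 : Ev Y G *ᵥ z = 0 := by
      funext x
      obtain ⟨j, a⟩ := x
      rw [Pi.zero_apply, ← h2 j p a, Matrix.sum_apply, Matrix.mulVec, dotProduct,
        Fintype.sum_prod_type]
      refine Finset.sum_congr rfl fun i _ => ?_
      rw [Matrix.mul_apply]
      refine Finset.sum_congr rfl fun b _ => ?_
      rw [Ev_apply, hz, mul_comm]
    have h6 : z = 0 := by
      rw [← Matrix.one_mulVec z, ← h3, ← Matrix.mulVec_mulVec, h5, Matrix.mulVec_zero]
    have h7 := congrFun h6 (i, b)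
    rw [hz] at h7
    exact h7
  have h5 := H F N₂ N X Y E fun i => by
    rw [← hZ]
    ext p b
    exact h4 i p b
  funext x p
  obtain ⟨l, b⟩ := x
  rw [← hE, h5]
  rfl

theorem t1_of
    (hcore : ∀ (d : ℕ) (m : List (Fin n) → Matrix (Fin n) (Fin n) (FreeAlgebra K (Fin n))ᵐᵒᵖ),
      (∀ w, d ≤ w.length → m w = 0) →
      (∀ c : (FreeAlgebra K (Fin n))ᵐᵒᵖ, c ≠ 0 → ∃ (D : Type) (_ : DivisionRing D)
        (h : (FreeAlgebra K (Fin n))ᵐᵒᵖ →+* D), h c ≠ 0 ∧
        ∃ L, ∀ w, L ≤ w.length → (inv m w).map h = 0) →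
      ∃ R, ∀ w, R ≤ w.length → inv m w = 0)
    (hos2 : ∀ (F κ : Type) [Field F] [Fintype κ] [DecidableEq κ] (d : ℕ)
      (m : List (Fin n) → Matrix κ κ F), (∀ w, d ≤ w.length → m w = 0) → m [] = 1 →
      (∀ (N : ℕ) (X : Fin n → Matrix (Fin N) (Fin N) F) (u : κ → Fin N → F),
        (∀ j, ∑ l, ∑ w ∈ words n d, m w j l • ((w.map X).prod *ᵥ u l) = 0) → u = 0) →
      ∃ L, ∀ w, L ≤ w.length → inv m w = 0)
    (hop : ∀ (P : Matrix (Fin n) (Fin n) (FreeAlgebra K (Fin n))ᵐᵒᵖ),
      (∀ (N : ℕ) (Y : Fin n → Matrix (Fin N) (Fin N) K) (u : Fin n → Fin N → K),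
        (∀ j, ∑ l, u l ᵥ* FreeAlgebra.lift K Y (unop (P j l)) = 0) → u = 0) →
      ∃ G : Matrix (Fin n) (Fin n) (FreeAlgebra K (Fin n))ᵐᵒᵖ, G * P = 1)
    (hdiv : ∀ (a : FreeAlgebra K (Fin n)), a ≠ 0 →
      ∃ (E : Type) (_ : Field E) (_ : Algebra K E) (N : ℕ) (D : Type) (_ : DivisionRing D)
        (h : FreeAlgebra K (Fin n) →+* D) (i : D →+* Matrix (Fin N) (Fin N) E),
        h a ≠ 0 ∧ Function.Injective i ∧
        ∀ c : K, i (h (algebraMap K _ c)) = algebraMap K (Matrix (Fin N) (Fin N) E) c)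
    {d : ℕ} (m : List (Fin n) → Matrix (Fin n) (Fin n) (FreeAlgebra K (Fin n))ᵐᵒᵖ)
    (hd : ∀ w, d ≤ w.length → m w = 0)
    (H : ∀ (F : Type) [Field F] [Algebra K F] (N N' : ℕ) (X : Fin n → Matrix (Fin N) (Fin N) F)
      (Y : Fin n → Matrix (Fin N') (Fin N') F) (E : Fin n → Matrix (Fin N) (Fin N') F),
      (∀ i, ∑ j, ∑ w ∈ words n d,
        (w.map X).prod * E j * FreeAlgebra.lift K Y (unop (m w i j)) = 0) → E = 0) :
    ∃ (R : ℕ) (V : List (Fin n) → Matrix (Fin n) (Fin n) (FreeAlgebra K (Fin n))ᵐᵒᵖ),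
      (∀ w, R ≤ w.length → V w = 0) ∧
      ∀ w, ∑ k ∈ Finset.range (w.length + 1), V (w.take k) * m (w.drop k) =
        if w = [] then 1 else 0 := by
  obtain ⟨G, hG⟩ := exists_G hop m hd H
  have hd' : ∀ w, d ≤ w.length → G * m w = 0 := fun w hw => by rw [hd w hw, Matrix.mul_zero]
  obtain ⟨R, hR⟩ := hcore d (fun w => G * m w) hd' (by
    intro c hc
    obtain ⟨E, _, _, N, D, _, h, i, hne, hinj, halg⟩ := hdiv (unop c) (by
      intro h
      exact hc (unop_injective h))
    refine ⟨Dᵐᵒᵖ, inferInstance, RingHom.op h, ?_, ?_⟩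
    · intro h0
      exact hne (op_injective h0)
    · let φ : FreeAlgebra K (Fin n) →ₐ[K] Matrix (Fin N) (Fin N) E :=
        { i.comp h with commutes' := fun c => halg c }
      obtain ⟨Y, hY⟩ : ∃ Y : Fin n → Matrix (Fin N) (Fin N) E, Y = fun j => φ (ι K j) :=
        ⟨_, rfl⟩
      have hφ : ∀ a, FreeAlgebra.lift K Y a = i (h a) := by
        intro a
        have h1 : FreeAlgebra.lift K Y = φ := by
          apply FreeAlgebra.hom_ext
          funext j
          simp [hY]
        rw [h1]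
        rfl
      obtain ⟨L, hL⟩ := hos2 E (Fin n × Fin N) d (fun w => Ev Y (G * m w))
        (fun w hw => by rw [hd' w hw, map_zero]) (by rw [hG, map_one])
        (fun N₂ X u hu => apply_H m H G hG Y N₂ X u hu)
      refine ⟨L, fun w hw => ?_⟩
      have h1 := hL w hw
      rw [← map_inv' (Ev Y) (fun w => G * m w) w] at h1
      ext j l
      rw [Matrix.map_apply, Matrix.zero_apply]
      apply unop_injective
      apply hinj
      change i (h (unop (inv (fun w => G * m w) w j l))) = i (unop 0)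
      rw [unop_zero, map_zero, ← hφ]
      ext b a
      have h2 := congrFun (congrFun h1 (j, a)) (l, b)
      rw [Ev_apply] at h2
      exact h2)
  refine ⟨R, fun w => inv (fun w => G * m w) w * G, fun w hw => ?_, fun w => ?_⟩
  · change inv (fun w => G * m w) w * G = 0
    rw [hR w hw, Matrix.zero_mul]
  · rw [← inv_mul (fun w => G * m w) hG w]
    refine Finset.sum_congr rfl fun k _ => ?_
    rw [Matrix.mul_assoc]

end T1

end Pool.Agent.TH376.GE
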